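import Pool.Agent.Q64.IF.Dec

/-! # A covolume argument -/

open Filter Topology Matrix H715R2

namespace Pool.Agent.Q64.IF

variable {d r : ℕ}

/-- a nonsingular square submatrix of a matrix with independent columns -/
lemma exists_minor (P : Matrix (Fin d) (Fin r) ℝ) (hP : ∀ y, P *ᵥ y = 0 → y = 0) :
    ∃ f : Fin r → Fin d, (P.submatrix f id).det ≠ 0 := by
  classical
  have hspan : Submodule.span ℝ (Set.range fun j => P j) = ⊤ := by
    by_contra hne
    obtain ⟨φ, hφ0, hφ⟩ := Submodule.exists_le_ker_of_lt_top _ (lt_top_iff_ne_top.2 hne)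
    apply hφ0
    set y : Fin r → ℝ := fun s => φ (Pi.single s 1) with hy
    have hrep : ∀ v : Fin r → ℝ, φ v = v ⬝ᵥ y := by
      intro v
      have h1 : v = ∑ s, v s • (Pi.single s (1 : ℝ) : Fin r → ℝ) := by
        funext t
        simp [Finset.sum_apply, Pi.single_apply]
      conv_lhs => rw [h1]
      rw [map_sum]
      simp only [map_smul, smul_eq_mul, dotProduct, hy]
    have hy0 : y = 0 := by
      apply hP
      funext j
      have h1 : P j ∈ LinearMap.ker φ := hφ (Submodule.subset_span ⟨j, rfl⟩)
      rw [LinearMap.mem_ker, hrep] at h1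
      exact h1
    ext s
    have : φ (Pi.single s 1) = 0 := congrFun hy0 s
    simpa using this
  obtain ⟨κ, a, ha, hspan', hli⟩ := exists_linearIndependent' ℝ (fun j => P j)
  have hbas := Module.Basis.mk hli (by rw [hspan', hspan])
  set e : κ ≃ Fin r := hbas.indexEquiv (Pi.basisFun ℝ (Fin r)) with he
  refine ⟨a ∘ e.symm, ?_⟩
  have h1 : LinearIndependent ℝ (P.submatrix (a ∘ e.symm) id).row := by
    have := hli.comp e.symm e.symm.injective
    exact this
  have h2 := (Matrix.linearIndependent_rows_iff_isUnit.1 h1)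
  exact ((Matrix.isUnit_iff_isUnit_det _).1 h2).ne_zero

/-- independent rows spanning the row space -/
lemma exists_rows (U : Matrix (Fin d) (Fin d) ℝ) (hr : U.rank = r) : ∃ a : Fin r → Fin d,
    Function.Injective a ∧ Submodule.span ℝ (Set.range fun s => U (a s))
      = Submodule.span ℝ (Set.range U.row) ∧ LinearIndependent ℝ (fun s => U (a s)) := by
  obtain ⟨κ, a, ha, hspan', hli⟩ := exists_linearIndependent' ℝ (fun j => U j)
  have : Finite κ := Finite.of_injective a ha
  have : Fintype κ := Fintype.ofFinite κ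
  have hcard : Fintype.card κ = r := by
    rw [← hr, Matrix.rank_eq_finrank_span_row, ← finrank_span_eq_card hli, hspan']
    rfl
  have e : Fin r ≃ κ := (Fintype.equivFinOfCardEq hcard).symm
  refine ⟨a ∘ e, ha.comp e.injective, ?_, hli.comp e e.injective⟩
  have h1 : (Set.range fun s => U ((a ∘ e) s)) = Set.range ((fun j => U j) ∘ a) := by
    ext v
    constructor
    · rintro ⟨s, rfl⟩
      exact ⟨e s, rfl⟩
    · rintro ⟨k, rfl⟩
      exact ⟨e.symm k, by simp⟩
  rw [h1, hspan']
  rfl

lemma det_bound (M : Matrix (Fin r) (Fin r) ℝ) (β : Fin r → ℝ)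
    (h : ∀ s t, |M s t| ≤ β s) : |M.det| ≤ (r.factorial : ℝ) * ∏ s, β s := by
  rw [det_apply]
  refine (Finset.abs_sum_le_sum_abs _ _).trans ?_
  have h1 : ∀ σ ∈ (Finset.univ : Finset (Equiv.Perm (Fin r))),
      |Equiv.Perm.sign σ • ∏ i, M (σ i) i| ≤ ∏ s, β s := by
    intro σ _
    have h2 : |Equiv.Perm.sign σ • ∏ i, M (σ i) i| = ∏ i, |M (σ i) i| := by
      rw [← Finset.abs_prod]
      rcases Int.units_eq_one_or (Equiv.Perm.sign σ) with h | h <;> simp [h]
    rw [h2, ← Equiv.prod_comp σ β]
    exact Finset.prod_le_prod (fun i _ => abs_nonneg _) fun i _ => h _ _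
  refine (Finset.sum_le_sum h1).trans (le_of_eq ?_)
  rw [Finset.sum_const, Finset.card_univ, Fintype.card_perm, Fintype.card_fin, nsmul_eq_mul]

/-- no block diagonal singular integral matrix if the block size is prime to `d` -/
theorem no_cov (hd : 0 < d) {g h : Matrix (Fin d) (Fin d) ℝ} {ν : ℝ} (hg : g.det ≠ 0)
    (hν : 0 < ν) (hnu : HasNu g ν) (hh : h ∈ closure (Orb g)) (I : Finset (Fin d))
    (hco : Nat.Coprime I.card d) (T : Matrix (Fin d) (Fin d) ℤ) (hT0 : T ≠ 0) (hTdet : T.det = 0)
    (hblk : ∀ i j, ¬ (i ∈ I ↔ j ∈ I) → (h * zR T * h⁻¹) i j = 0) : False := by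
  classical
  have hhd := det_ne_of_mem hg hh
  have hhu : IsUnit h.det := isUnit_iff_ne_zero.2 hhd
  set B := h * zR T * h⁻¹ with hB
  have hBh : B * h = h * zR T := by
    rw [hB, Matrix.mul_assoc, Matrix.nonsing_inv_mul _ hhu, Matrix.mul_one]
  have hTR0 : zR T ≠ 0 := by
    intro h0
    apply hT0
    ext i j
    have := congrFun (congrFun h0 i) j
    simpa [zR] using this
  have hTRdet : (zR T).det = 0 := by rw [det_zR, hTdet]; simp
  set U := h * zR T with hU
  have hrank : U.rank = (zR T).rank := Matrix.rank_mul_eq_right_of_isUnit_det _ _ hhu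
  obtain ⟨r, hr⟩ : ∃ r, (zR T).rank = r := ⟨_, rfl⟩
  obtain ⟨a, ha, haspan, hali⟩ := exists_rows U (hrank.trans hr)
  obtain ⟨a', ha', ha'span, ha'li⟩ := exists_rows (zR T) hr
  have hr0 : 0 < r := by
    rw [Nat.pos_iff_ne_zero]
    intro h0
    subst h0
    apply hTR0
    ext i j
    have h1 : (zR T).row i ∈ Submodule.span ℝ (Set.range fun s => zR T (a' s)) := by
      rw [ha'span]; exact Submodule.subset_span ⟨i, rfl⟩
    rw [Set.range_eq_empty, Submodule.span_empty, Submodule.mem_bot] at h1
    exact congrFun h1 j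
  have hrd : r < d := by
    have h1 : r ≤ d := by
      have := Fintype.card_le_of_injective a ha
      simpa using this
    refine lt_of_le_of_ne h1 fun h2 => ?_
    subst h2
    have h3 : Function.Bijective a' := (Fintype.bijective_iff_injective_and_card a').2 ⟨ha', rfl⟩
    have h4 : LinearIndependent ℝ (zR T).row := by
      have := ha'li.comp _ (Equiv.ofBijective a' h3).symm.injective
      have h5 : (fun s => zR T (a' s)) ∘ (Equiv.ofBijective a' h3).symm = (zR T).row := by
        funext j
        show zR T (a' ((Equiv.ofBijective a' h3).symm j)) = zR T j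
        have : a' ((Equiv.ofBijective a' h3).symm j) = j :=
          (Equiv.ofBijective a' h3).apply_symm_apply j
        rw [this]
      rwa [h5] at this
    have h5 := Matrix.linearIndependent_rows_iff_isUnit.1 h4
    exact ((Matrix.isUnit_iff_isUnit_det _).1 h5).ne_zero hTRdet
  -- the counting exponent
  set rI : ℕ := (Finset.univ.filter fun s => a s ∈ I).card with hrI
  have hexp : ∑ s, wt I (a s) = (d : ℝ) * rI - r * I.card := by
    unfold wt
    rw [Finset.sum_sub_distrib]
    simp [hrI, Finset.sum_ite]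
    ring
  have hne : (d : ℝ) * rI - r * I.card ≠ 0 := by
    intro h0
    have h1 : d * rI = r * I.card := by
      have : (d : ℝ) * rI = r * I.card := by linarith
      exact_mod_cast this
    have h2 : d ∣ r * I.card := ⟨rI, h1.symm⟩
    have h3 : d ∣ r := (Nat.Coprime.symm hco).dvd_of_dvd_mul_right h2
    exact absurd (Nat.le_of_dvd hr0 h3) (not_le.2 hrd)
  -- the transition matrix
  have hTU : ∀ s, ∃ c : Fin r → ℝ, ∑ t, c t • U (a t) = zR T (a' s) := by
    intro s
    have h1 : zR T (a' s) ∈ Submodule.span ℝ (Set.range fun s => U (a s)) := by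
      rw [haspan]
      have h2 : zR T = h⁻¹ * U := by
        rw [hU, ← Matrix.mul_assoc, Matrix.nonsing_inv_mul _ hhu, Matrix.one_mul]
      have h3 : zR T (a' s) = ∑ t, h⁻¹ (a' s) t • U t := by
        conv_lhs => rw [h2]
        funext j
        rw [Matrix.mul_apply, Finset.sum_apply]
        rfl
      rw [h3]
      exact Submodule.sum_mem _ fun t _ => Submodule.smul_mem _ _ (Submodule.subset_span ⟨t, rfl⟩)
    exact (Submodule.mem_span_range_iff_exists_fun ℝ).1 h1
  choose T0 hT0' using hTU
  obtain ⟨R, hR⟩ := exists_bound hd |g.det| ν (abs_pos.2 hg) hν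
  set C : ℝ := ∑ i, ∑ l, |B i l| * |R| with hC
  have hC0 : 0 ≤ C := Finset.sum_nonneg fun i _ => Finset.sum_nonneg fun l _ => by positivity
  -- the estimate
  have key : ∀ s : ℝ, 1 ≤ |(Matrix.of T0).det| * ((r.factorial : ℝ) *
      (C ^ r * Real.exp (-s * ((d : ℝ) * rI - r * I.card)))) := by
    intro s
    obtain ⟨γ, hγ, hb⟩ := hR (DI I s * h) (abs_det_closure (DI_mem hh I s))
      (hasNu_closure hnu (DI_mem hh I s))
    set Y : Matrix (Fin r) (Fin d) ℤ := fun s => (T * γ) (a' s) with hY
    set P : Matrix (Fin d) (Fin r) ℝ := fun j s => zR (T * γ) (a' s) j with hP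
    obtain ⟨f, hf⟩ := exists_minor P (by
      intro y hy
      have h1 : (∑ s, y s • zR T (a' s)) ᵥ* zR γ = 0 := by
        funext j
        have h2 := congrFun hy j
        simp only [mulVec, dotProduct, hP, zR_mul, Matrix.mul_apply, Pi.zero_apply] at h2
        rw [Pi.zero_apply, ← h2]
        simp only [vecMul, dotProduct, Finset.sum_apply, Pi.smul_apply, smul_eq_mul,
          Finset.sum_mul]
        rw [Finset.sum_comm]
        refine Finset.sum_congr rfl fun t _ => Finset.sum_congr rfl fun l _ => ?_
        ring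
      have h3 : (∑ s, y s • zR T (a' s)) = 0 := by
        have h4 : ((∑ s, y s • zR T (a' s)) ᵥ* zR γ) ᵥ* zR γ⁻¹ = 0 := by rw [h1, zero_vecMul]
        rwa [vecMul_vecMul, zR_inv hγ, vecMul_one] at h4
      funext s
      exact Fintype.linearIndependent_iff.1 ha'li y h3 s)
    -- the minor is an integer
    have h1 : (1 : ℝ) ≤ |(P.submatrix f id).det| := by
      have h2 : (P.submatrix f id) = ((Matrix.of fun s t => (T * γ) (a' t) (f s)).map
          (Int.cast : ℤ → ℝ)) := by
        ext s t
        rfl
      have h3 : (P.submatrix f id).det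
          = (((Matrix.of fun s t => (T * γ) (a' t) (f s) : Matrix (Fin r) (Fin r) ℤ).det : ℤ) : ℝ) := by
        rw [h2]
        exact ((Int.castRingHom ℝ).map_det _).symm
      rw [h3] at hf ⊢
      have h4 : (Matrix.of fun s t => (T * γ) (a' t) (f s) : Matrix (Fin r) (Fin r) ℤ).det ≠ 0 := by
        intro h0
        rw [h0] at hf
        exact hf (by simp)
      have h5 := Int.one_le_abs h4
      exact_mod_cast h5
    refine h1.trans ?_
    set W : Matrix (Fin r) (Fin r) ℝ := fun t s => (B * h * zR γ) (a t) (f s) with hW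
    have h2 : (P.submatrix f id)ᵀ = Matrix.of T0 * W := by
      ext s t
      rw [transpose_apply, submatrix_apply, id, Matrix.mul_apply]
      simp only [hP, hW, Matrix.of_apply, zR_mul, Matrix.mul_apply (M := zR T)]
      rw [← hT0' s]
      simp only [Finset.sum_apply, Pi.smul_apply, smul_eq_mul, Finset.sum_mul]
      rw [Finset.sum_comm]
      refine Finset.sum_congr rfl fun l _ => ?_
      rw [Matrix.mul_apply, hBh, Finset.mul_sum]
      refine Finset.sum_congr rfl fun j _ => ?_
      ring
    rw [← det_transpose, h2, det_mul, abs_mul]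
    refine mul_le_mul_of_nonneg_left ?_ (abs_nonneg _)
    have h3 : ∀ t s', |W t s'| ≤ C * Real.exp (-s * wt I (a t)) := by
      intro t s'
      have h4 : B * h * zR γ = DI I (-s) * B * (DI I s * h * zR γ) := by
        have h5 : DI I (-s) * B = B * DI I (-s) := by
          ext i j
          rw [DI, diagonal_mul, mul_diagonal]
          by_cases hij : (i ∈ I ↔ j ∈ I)
          · have : wt I i = wt I j := by
              unfold wt
              by_cases hi : i ∈ I
              · rw [if_pos hi, if_pos (hij.1 hi)]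
              · rw [if_neg hi, if_neg (fun h => hi (hij.2 h))]
            rw [this, mul_comm]
          · rw [hblk i j hij]; ring
        have h6 : DI I (-s) * DI I s = 1 := by
          have := DI_inv I (-s)
          rwa [neg_neg] at this
        rw [h5]
        calc B * h * zR γ = B * (1 * h) * zR γ := by rw [Matrix.one_mul]
          _ = B * ((DI I (-s) * DI I s) * h) * zR γ := by rw [h6]
          _ = _ := by simp only [Matrix.mul_assoc]
      simp only [hW]
      rw [h4, Matrix.mul_assoc, DI, diagonal_mul, abs_mul, abs_of_pos (Real.exp_pos _), mul_comm]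
      refine mul_le_mul_of_nonneg_right ?_ (Real.exp_pos _).le
      rw [Matrix.mul_apply]
      refine (Finset.abs_sum_le_sum_abs _ _).trans ?_
      refine le_trans ?_ (Finset.single_le_sum (f := fun i => ∑ l, |B i l| * |R|)
        (fun i _ => Finset.sum_nonneg fun l _ => by positivity) (Finset.mem_univ (a t)))
      refine Finset.sum_le_sum fun l _ => ?_
      rw [abs_mul]
      exact mul_le_mul_of_nonneg_left ((hb _ _).trans (le_abs_self R)) (abs_nonneg _)
    refine (det_bound W _ h3).trans (le_of_eq ?_)
    rw [Finset.prod_mul_distrib, Finset.prod_const, Finset.card_univ, Fintype.card_fin,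
      ← Real.exp_sum, ← Finset.mul_sum, hexp]
  -- conclusion
  set A := |(Matrix.of T0).det| * ((r.factorial : ℝ) * C ^ r) with hA
  set q := (d : ℝ) * rI - r * I.card with hq
  have key' : ∀ u : ℝ, 1 ≤ A * Real.exp (-u) := by
    intro u
    have := key (u / q)
    have h2 : -(u / q) * q = -u := by field_simp
    rw [h2] at this
    calc (1:ℝ) ≤ _ := this
      _ = _ := by rw [hA]; ring
  have hlim : Tendsto (fun u : ℝ => A * Real.exp (-u)) atTop (𝓝 (A * 0)) :=
    (Real.tendsto_exp_neg_atTop_nhds_zero).const_mul A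
  have := ge_of_tendsto' hlim key'
  rw [mul_zero] at this
  linarith

end Pool.Agent.Q64.IF
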