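import Pool.Agent.Q64.IF.Path

/-! # Decoupling a set of rows -/

open Filter Topology Matrix H715R2

namespace Pool.Agent.Q64.IF

variable {d : ℕ}

/-- block weights -/
noncomputable def wt (I : Finset (Fin d)) (i : Fin d) : ℝ := (if i ∈ I then (d : ℝ) else 0) - I.card

lemma sum_wt (I : Finset (Fin d)) : ∑ i, wt I i = 0 := by
  unfold wt
  rw [Finset.sum_sub_distrib]
  simp
  ring

/-- the one parameter group of the block -/
noncomputable def DI (I : Finset (Fin d)) (s : ℝ) : Matrix (Fin d) (Fin d) ℝ :=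
  diagonal fun i => Real.exp (s * wt I i)

lemma prod_exp (I : Finset (Fin d)) (s : ℝ) : ∏ i, Real.exp (s * wt I i) = 1 := by
  rw [← Real.exp_sum, ← Finset.mul_sum, sum_wt, mul_zero, Real.exp_zero]

lemma DI_mem {g h : Matrix (Fin d) (Fin d) ℝ} (hh : h ∈ closure (Orb g)) (I : Finset (Fin d))
    (s : ℝ) : DI I s * h ∈ closure (Orb g) := by
  have := closure_mul hh (a := fun i => Real.exp (s * wt I i)) (γ := 1)
    (fun i => Real.exp_pos _) (prod_exp I s) (by simp)
  rwa [zR_one, Matrix.mul_one] at this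

lemma closure_gam {g h : Matrix (Fin d) (Fin d) ℝ} (hh : h ∈ closure (Orb g))
    {γ : Matrix (Fin d) (Fin d) ℤ} (hγ : IsUnit γ.det) : h * zR γ ∈ closure (Orb g) := by
  have := closure_mul hh (a := fun _ => 1) (γ := γ) (fun i => one_pos) (by simp) hγ
  rwa [show diagonal (fun _ : Fin d => (1 : ℝ)) = 1 from diagonal_one, Matrix.one_mul] at this

lemma DI_inv (I : Finset (Fin d)) (s : ℝ) : DI I s * DI I (-s) = 1 := by
  rw [DI, DI, diagonal_mul_diagonal, ← diagonal_one]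
  congr 1
  funext i
  rw [← Real.exp_add]
  simp

lemma int_ev {a : ℕ → ℤ} {L : ℝ} (h : Tendsto (fun n => (a n : ℝ)) atTop (𝓝 L)) :
    ∃ z : ℤ, (z : ℝ) = L ∧ ∀ᶠ n in atTop, a n = z := by
  have h5 : IsClosed (Set.range (Int.cast : ℤ → ℝ)) := Int.isClosedEmbedding_coe_real.isClosed_range
  obtain ⟨z, hz⟩ := h5.mem_of_tendsto h (Eventually.of_forall fun n => ⟨_, rfl⟩)
  refine ⟨z, hz, ?_⟩
  rw [← hz] at h
  have h6 : Tendsto a atTop (𝓝 z) := Int.isClosedEmbedding_coe_real.isEmbedding.tendsto_nhds_iff.2 h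
  rw [nhds_discrete] at h6
  exact tendsto_pure.1 h6

lemma mat_ev {C : ℕ → Matrix (Fin d) (Fin d) ℤ} {L : Matrix (Fin d) (Fin d) ℝ}
    (h : Tendsto (fun n => zR (C n)) atTop (𝓝 L)) :
    ∃ Z : Matrix (Fin d) (Fin d) ℤ, zR Z = L ∧ ∀ᶠ n in atTop, C n = Z := by
  have h1 : ∀ i j, ∃ z : ℤ, (z : ℝ) = L i j ∧ ∀ᶠ n in atTop, C n i j = z := fun i j =>
    int_ev (((continuous_apply_apply i j).tendsto L).comp h)
  choose z hz hz' using h1
  refine ⟨fun i j => z i j, ?_, ?_⟩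
  · ext i j
    exact hz i j
  · have := Filter.eventually_all.2 fun i => Filter.eventually_all.2 fun j => hz' i j
    filter_upwards [this] with n hn
    ext i j
    exact hn i j

lemma tendsto_inv_mat' {hs : ℕ → Matrix (Fin d) (Fin d) ℝ} {h : Matrix (Fin d) (Fin d) ℝ}
    (hlim : Tendsto hs atTop (𝓝 h)) (hdet : h.det ≠ 0) :
    Tendsto (fun n => (hs n)⁻¹) atTop (𝓝 h⁻¹) := by
  simp only [Matrix.inv_def, Ring.inverse_eq_inv']
  have h1 : Tendsto (fun n => (hs n).det) atTop (𝓝 h.det) :=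
    ((Continuous.matrix_det continuous_id).tendsto h).comp hlim
  have h2 : Tendsto (fun n => (hs n).adjugate) atTop (𝓝 h.adjugate) :=
    ((Continuous.matrix_adjugate continuous_id).tendsto h).comp hlim
  exact (h1.inv₀ hdet).smul h2

lemma det_ne_of_mem {g h : Matrix (Fin d) (Fin d) ℝ} (hg : g.det ≠ 0) (hh : h ∈ closure (Orb g)) :
    h.det ≠ 0 := by
  intro h0
  have := abs_det_closure hh
  rw [h0, abs_zero] at this
  exact hg (abs_eq_zero.1 this.symm)

/-- compactness along the block group: a limit point -/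
lemma exists_lim (hd : 0 < d) {g h : Matrix (Fin d) (Fin d) ℝ} {ν : ℝ} (hg : g.det ≠ 0)
    (hν : 0 < ν) (hnu : HasNu g ν) (x : ℕ → Matrix (Fin d) (Fin d) ℝ)
    (hx : ∀ n, x n ∈ closure (Orb g)) :
    ∃ (γ : ℕ → Matrix (Fin d) (Fin d) ℤ) (φ : ℕ → ℕ) (h' : Matrix (Fin d) (Fin d) ℝ),
      (∀ n, IsUnit (γ n).det) ∧ StrictMono φ ∧ h' ∈ closure (Orb g) ∧
      Tendsto (fun n => x (φ n) * zR (γ (φ n))) atTop (𝓝 h') := by
  obtain ⟨R, hR⟩ := exists_bound hd |g.det| ν (abs_pos.2 hg) hν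
  choose γ hγ hb using fun n => hR (x n) (abs_det_closure (hx n)) (hasNu_closure hnu (hx n))
  obtain ⟨h', -, φ, hφ, hlim⟩ := (isCompact_box R).tendsto_subseq (x := fun n => x n * zR (γ n)) hb
  refine ⟨γ, φ, h', hγ, hφ, ?_, hlim⟩
  exact isClosed_closure.mem_of_tendsto hlim
    (Eventually.of_forall fun n => closure_gam (hx _) (hγ _))

theorem decouple (hd : 0 < d) {g h : Matrix (Fin d) (Fin d) ℝ} {ν : ℝ} (hg : g.det ≠ 0)
    (hν : 0 < ν) (hnu : HasNu g ν) (hh : h ∈ closure (Orb g)) (I : Finset (Fin d))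
    (S : Matrix (Fin d) (Fin d) ℤ) (hS : ∀ i ∈ I, ∀ j ∉ I, (h * zR S * h⁻¹) i j = 0) :
    ∃ h'' ∈ closure (Orb g), ∀ i j, ¬ (i ∈ I ↔ j ∈ I) → (h'' * zR S * h''⁻¹) i j = 0 := by
  have hhd := det_ne_of_mem hg hh
  have hhu : IsUnit h.det := isUnit_iff_ne_zero.2 hhd
  obtain ⟨γ, φ, h', hγ, hφ, hh', hlim⟩ := exists_lim (h := h) hd hg hν hnu
    (fun n => DI I n * h) (fun n => DI_mem hh I n)
  have hh'd := det_ne_of_mem hg hh'
  have hh'u : IsUnit h'.det := isUnit_iff_ne_zero.2 hh'd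
  set M := h * zR S * h⁻¹ with hM
  set Mb : Matrix (Fin d) (Fin d) ℝ := fun i j => if (i ∈ I ↔ j ∈ I) then M i j else 0 with hMb
  set x : ℕ → Matrix (Fin d) (Fin d) ℝ := fun n => DI I n * h * zR (γ n) with hx
  have hxdet : ∀ n, (x n).det ≠ 0 := fun n => det_ne_of_mem hg (closure_gam (DI_mem hh I n) (hγ n))
  set C : ℕ → Matrix (Fin d) (Fin d) ℤ := fun n => (γ n)⁻¹ * S * γ n with hC
  have hCx : ∀ n, x n * zR (C n) = (DI I n * M * DI I (-n)) * x n := by
    intro n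
    have e1 : zR (γ n) * zR (C n) = zR S * zR (γ n) := by
      rw [← zR_mul, ← zR_mul, hC, ← Matrix.mul_assoc, ← Matrix.mul_assoc,
        Matrix.mul_nonsing_inv _ (hγ n), Matrix.one_mul]
    have e2 : DI I (-(n:ℝ)) * DI I n = 1 := by
      have := DI_inv I (-(n:ℝ))
      rwa [neg_neg] at this
    have e3 : M * h = h * zR S := by
      rw [hM, Matrix.mul_assoc, Matrix.nonsing_inv_mul _ hhu, Matrix.mul_one]
    calc x n * zR (C n) = DI I n * h * (zR (γ n) * zR (C n)) := by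
          simp only [hx, Matrix.mul_assoc]
      _ = DI I n * (h * zR S) * zR (γ n) := by rw [e1]; simp only [Matrix.mul_assoc]
      _ = DI I n * M * (1 * h) * zR (γ n) := by rw [← e3, Matrix.one_mul]; simp only [Matrix.mul_assoc]
      _ = DI I n * M * ((DI I (-(n:ℝ)) * DI I n) * h) * zR (γ n) := by rw [e2]
      _ = _ := by simp only [hx, Matrix.mul_assoc]
  have hCe : ∀ n, zR (C n) = (x n)⁻¹ * ((DI I n * M * DI I (-n)) * x n) := by
    intro n
    rw [← hCx n, ← Matrix.mul_assoc, Matrix.nonsing_inv_mul _ (isUnit_iff_ne_zero.2 (hxdet n)),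
      Matrix.one_mul]
  have hDM : Tendsto (fun n : ℕ => DI I n * M * DI I (-n)) atTop (𝓝 Mb) := by
    have : ∀ n : ℕ, DI I n * M * DI I (-n)
        = fun i j => Real.exp ((n:ℝ) * (wt I i - wt I j)) * M i j := by
      intro n
      ext i j
      rw [DI, DI, mul_diagonal, diagonal_mul, mul_sub, sub_eq_add_neg, Real.exp_add]
      ring_nf
    rw [funext this]
    refine tendsto_pi_nhds.2 fun i => tendsto_pi_nhds.2 fun j => ?_
    simp only [hMb]
    by_cases hij : (i ∈ I ↔ j ∈ I)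
    · rw [if_pos hij]
      have : wt I i - wt I j = 0 := by
        unfold wt
        by_cases hi : i ∈ I
        · rw [if_pos hi, if_pos (hij.1 hi)]; ring
        · rw [if_neg hi, if_neg (fun h => hi (hij.2 h))]; ring
      simp [this]
    · rw [if_neg hij]
      by_cases hi : i ∈ I
      · have hj : j ∉ I := fun hj => hij ⟨fun _ => hj, fun _ => hi⟩
        rw [hS i hi j hj]
        simp
      · have hj : j ∈ I := by
          by_contra hj
          exact hij ⟨fun h => absurd h hi, fun h => absurd h hj⟩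
        have hw : wt I i - wt I j = -(d:ℝ) := by
          unfold wt
          rw [if_neg hi, if_pos hj]; ring
        rw [hw]
        have hd' : (0:ℝ) < d := by exact_mod_cast hd
        have h1 : Tendsto (fun n : ℕ => (n:ℝ) * -(d:ℝ)) atTop atBot :=
          tendsto_natCast_atTop_atTop.atTop_mul_const_of_neg (by linarith)
        have h2 := (Real.tendsto_exp_atBot.comp h1).mul_const (M i j)
        rwa [zero_mul] at h2
  have hlim' : Tendsto (fun n => zR (C (φ n))) atTop (𝓝 (h'⁻¹ * (Mb * h'))) := by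
    have h1 := (tendsto_inv_mat' hlim hh'd).mul ((hDM.comp hφ.tendsto_atTop).mul hlim)
    refine h1.congr fun n => ?_
    rw [hCe]
    rfl
  obtain ⟨Z, hZ, hev⟩ := mat_ev hlim'
  obtain ⟨n0, hn0⟩ := hev.exists
  have hu0 := hγ (φ n0)
  have hu0' : IsUnit ((γ (φ n0))⁻¹).det := by
    rw [Matrix.det_nonsing_inv]
    exact hu0.ringInverse
  refine ⟨h' * zR (γ (φ n0))⁻¹, closure_gam hh' hu0', fun i j hij => ?_⟩
  have k1 : h' * zR (γ (φ n0))⁻¹ * zR S = Mb * (h' * zR (γ (φ n0))⁻¹) := by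
    have e1 : (γ (φ n0))⁻¹ * S = Z * (γ (φ n0))⁻¹ := by
      rw [← hn0, hC]
      simp only [Matrix.mul_assoc]
      rw [Matrix.mul_nonsing_inv _ hu0, Matrix.mul_one]
    rw [Matrix.mul_assoc, ← zR_mul, e1, zR_mul, hZ]
    simp only [← Matrix.mul_assoc]
    rw [Matrix.mul_nonsing_inv _ hh'u, Matrix.one_mul]
  have k2 : IsUnit (h' * zR (γ (φ n0))⁻¹).det :=
    isUnit_iff_ne_zero.2 (det_ne_of_mem hg (closure_gam hh' hu0'))
  rw [k1, Matrix.mul_assoc, Matrix.mul_nonsing_inv _ k2, Matrix.mul_one]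
  simp only [hMb]
  rw [if_neg hij]

end Pool.Agent.Q64.IF
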