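import Pool.Agent.Q64.IF.Main

/-! # Assembly -/

open Filter Topology Matrix H715R2 NumberField Polynomial

namespace Pool.Agent.Q64.IF

variable {d : ℕ}

/-- the field generated by `σ` -/
abbrev KK (σ : Matrix (Fin d) (Fin d) ℚ) := AdjoinRoot (minpoly ℚ σ)

lemma numberField (σ : Matrix (Fin d) (Fin d) ℚ) [Fact (Irreducible (minpoly ℚ σ))] :
    NumberField (KK σ) := by
  have hirr : Irreducible (minpoly ℚ σ) := Fact.out
  have hc : CharZero (KK σ) := algebraRat.charZero _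
  have hf : FiniteDimensional ℚ (KK σ) :=
    (AdjoinRoot.powerBasis hirr.ne_zero).finite
  exact { to_charZero := hc, to_finiteDimensional := hf }

lemma finrank_KK (σ : Matrix (Fin d) (Fin d) ℚ) [Fact (Irreducible (minpoly ℚ σ))] :
    Module.finrank ℚ (KK σ) = (minpoly ℚ σ).natDegree := by
  have hirr : Irreducible (minpoly ℚ σ) := Fact.out
  exact (AdjoinRoot.powerBasis hirr.ne_zero).finrank

/-- the action on `ℚ^d` -/
noncomputable def psi (σ : Matrix (Fin d) (Fin d) ℚ) : KK σ →+* Matrix (Fin d) (Fin d) ℚ :=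
  Ideal.Quotient.lift (Ideal.span {minpoly ℚ σ})
    ((aeval σ : ℚ[X] →ₐ[ℚ] Matrix (Fin d) (Fin d) ℚ) : ℚ[X] →+* Matrix (Fin d) (Fin d) ℚ) (by
      intro a ha
      obtain ⟨b, rfl⟩ := Ideal.mem_span_singleton.1 ha
      simp)

lemma psi_mk (σ : Matrix (Fin d) (Fin d) ℚ) (q : ℚ[X]) :
    psi σ (AdjoinRoot.mk (minpoly ℚ σ) q) = aeval σ q := rfl

/-- **Main theorem**, block diagonal form. -/
theorem main_blk (hd : 3 ≤ d) {g h : Matrix (Fin d) (Fin d) ℝ} {ν : ℝ} (hg : g.det ≠ 0)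
    (hν : 0 < ν) (hnu : HasNu g ν) (hh : h ∈ closure (Orb g)) (I : Finset (Fin d))
    (hI : I.Nonempty) (hI' : I ≠ Finset.univ) (σ : Matrix (Fin d) (Fin d) ℚ)
    (hirr : Irreducible (minpoly ℚ σ)) (hdeg : (minpoly ℚ σ).natDegree = d)
    (hb : Blk h I (rQ d σ)) :
    Inf0 g ∨ PropInt g ∨ ∃ q : ℚ[X], 1 < (minpoly ℚ (aeval σ q)).natDegree ∧
      (minpoly ℚ (aeval σ q)).natDegree < d ∧ d ∣ I.card * (minpoly ℚ (aeval σ q)).natDegree ∧
      ∃ x : Fin d → ℝ, h * rQ d (aeval σ q) = diagonal x * h ∧ ∀ i ∈ I, ∀ j ∉ I, x i ≠ x j := by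
  classical
  have hu : IsUnit h.det := isUnit_iff_ne_zero.2 (det_ne_of_mem hg hh)
  have hne : Nonempty (Fin d) := ⟨⟨0, by omega⟩⟩
  have hfact : Fact (Irreducible (minpoly ℚ σ)) := ⟨hirr⟩
  have hnf := numberField σ
  let D : Rep (KK σ) d :=
    { hd := by omega
      Ψ := psi σ
      hK := by rw [finrank_KK, hdeg] }
  obtain ⟨z, x, hx, hsep⟩ := D.tube hg hν hnu hh I (fun z => by
    obtain ⟨q, rfl⟩ := AdjoinRoot.mk_surjective z
    exact blk_aeval hu hb q)
  obtain ⟨q, rfl⟩ := AdjoinRoot.mk_surjective z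
  have hx' : h * rQ d (aeval σ q) = diagonal x * h := hx
  set T := aeval σ q with hT
  have hTirr : Irreducible (minpoly ℚ T) := by
    have h1 : minpoly ℚ ((psi σ).toRatAlgHom (AdjoinRoot.mk (minpoly ℚ σ) q))
        = minpoly ℚ (AdjoinRoot.mk (minpoly ℚ σ) q) :=
      minpoly.algHom_eq (psi σ).toRatAlgHom (psi σ).injective _
    have h2 : (psi σ).toRatAlgHom (AdjoinRoot.mk (minpoly ℚ σ) q) = T := rfl
    rw [h2] at h1
    rw [h1]
    exact minpoly.irreducible (Algebra.IsIntegral.isIntegral _)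
  obtain ⟨e, he, hed⟩ := charpoly_eq_pow T hTirr
  have hdvd : e ∣ I.card := dvd_card hu hx' hTirr he hsep
  have hm := mult hu hx' hTirr he
  obtain ⟨i0, hi0⟩ := hI
  obtain ⟨j0, hj0⟩ : ∃ j, j ∉ I := by
    by_contra hcon
    push Not at hcon
    exact hI' (Finset.eq_univ_iff_forall.2 hcon)
  have hdpos : 0 < (minpoly ℚ T).natDegree := minpoly.natDegree_pos (Matrix.isIntegral T)
  have hd1 : (minpoly ℚ T).natDegree ≠ 1 := by
    intro h1
    have h2 : e = d := by rw [h1, mul_one] at hed; exact hed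
    have h3 := hm i0
    rw [h2] at h3
    have h4 : (Finset.univ.filter fun j => x j = x i0) = Finset.univ := by
      rw [← Finset.card_eq_iff_eq_univ, h3, Fintype.card_fin]
    have h5 : j0 ∈ (Finset.univ.filter fun j => x j = x i0) := by rw [h4]; exact Finset.mem_univ _
    exact hsep i0 hi0 j0 hj0 (Finset.mem_filter.1 h5).2.symm
  rcases eq_or_ne (minpoly ℚ T).natDegree d with h1 | h1
  · have h2 : e = 1 := by
      rw [h1] at hed
      exact Nat.eq_of_mul_eq_mul_right (by omega : 0 < d) (by rw [hed, one_mul])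
    have hinj : Function.Injective x := by
      intro i j hij
      have h3 := hm j
      rw [h2, Finset.card_eq_one] at h3
      obtain ⟨l, hl⟩ := h3
      have h4 : i ∈ (Finset.univ.filter fun j' => x j' = x j) := by simp [hij]
      have h5 : j ∈ (Finset.univ.filter fun j' => x j' = x j) := by simp
      rw [hl, Finset.mem_singleton] at h4 h5
      rw [h4, h5]
    rcases alg_row hd hg hh hinj hx' with h3 | h3
    · exact Or.inl h3
    · exact Or.inr (Or.inl h3)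
  · refine Or.inr (Or.inr ⟨q, lt_of_le_of_ne hdpos (Ne.symm hd1), ?_, ?_, x, hx', hsep⟩)
    · have he0 : 0 < e := by
        rw [Nat.pos_iff_ne_zero]
        rintro rfl
        omega
      have : (minpoly ℚ T).natDegree ≤ d := by
        calc (minpoly ℚ T).natDegree ≤ e * (minpoly ℚ T).natDegree := Nat.le_mul_of_pos_left _ he0
          _ = d := hed
      exact lt_of_le_of_ne this h1
    · conv_lhs => rw [← hed]
      exact Nat.mul_dvd_mul_right hdvd _

/-- the coprime case -/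
theorem main_coprime (hd : 3 ≤ d) {g h : Matrix (Fin d) (Fin d) ℝ} (hg : g.det ≠ 0)
    (hh : h ∈ closure (Orb g)) (I : Finset (Fin d))
    (hI : I.Nonempty) (hI' : I ≠ Finset.univ) (hco : Nat.Coprime I.card d)
    (σ : Matrix (Fin d) (Fin d) ℚ)
    (hσ : (minpoly ℚ σ).natDegree = d ∨ (d.Prime ∧ ∀ c : ℚ, σ ≠ c • 1))
    (hinv : ∀ i ∈ I, h i ᵥ* rQ d σ ∈ Submodule.span ℝ ((fun i => h i) '' (I : Set (Fin d)))) :
    Inf0 g ∨ PropInt g := by
  by_cases h0 : Inf0 g
  · exact Or.inl h0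
  have hne : Nonempty (Fin d) := ⟨⟨0, by omega⟩⟩
  obtain ⟨ν, hν, hnu⟩ := exists_nu h0
  obtain ⟨h'', hh'', hb⟩ := decouple' (by omega) hg hν hnu hh I σ hinv
  have hirr := irred_of_coprime (by omega) hg hν hnu hh'' I hco σ hb
  have hdeg : (minpoly ℚ σ).natDegree = d := by
    rcases hσ with h1 | ⟨h1, h2⟩
    · exact h1
    · obtain ⟨e, he, hed⟩ := charpoly_eq_pow σ hirr
      have h3 : (minpoly ℚ σ).natDegree ∣ d := ⟨e, by rw [mul_comm]; exact hed.symm⟩
      rcases (Nat.dvd_prime h1).1 h3 with h4 | h4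
      · exfalso
        obtain ⟨c, hc⟩ : ∃ c : ℚ, minpoly ℚ σ = X - C c := by
          have hm : (minpoly ℚ σ).Monic := minpoly.monic (Matrix.isIntegral σ)
          have h5 := hm.eq_X_add_C h4
          exact ⟨-(minpoly ℚ σ).coeff 0, by rw [h5]; simp⟩
        have h6 := minpoly.aeval ℚ σ
        rw [hc, map_sub, aeval_X, aeval_C, sub_eq_zero, Algebra.algebraMap_eq_smul_one] at h6
        exact h2 c h6
      · exact h4
  rcases main_blk hd hg hν hnu hh'' I hI hI' σ hirr hdeg hb with h1 | h1 | ⟨q, h2, h3, h4, -⟩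
  · exact Or.inl h1
  · exact Or.inr h1
  · exfalso
    have h5 : d ∣ (minpoly ℚ (aeval σ q)).natDegree := (Nat.Coprime.symm hco).dvd_of_dvd_mul_left h4
    exact absurd (Nat.le_of_dvd (by omega) h5) (not_le.2 h3)

/-- the general case -/
theorem main_irred (hd : 3 ≤ d) {g h : Matrix (Fin d) (Fin d) ℝ} (hg : g.det ≠ 0)
    (hh : h ∈ closure (Orb g)) (I : Finset (Fin d))
    (hI : I.Nonempty) (hI' : I ≠ Finset.univ)
    (σ : Matrix (Fin d) (Fin d) ℚ) (hirr : Irreducible (minpoly ℚ σ))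
    (hdeg : (minpoly ℚ σ).natDegree = d)
    (hinv : ∀ i ∈ I, h i ᵥ* rQ d σ ∈ Submodule.span ℝ ((fun i => h i) '' (I : Set (Fin d)))) :
    Inf0 g ∨ PropInt g ∨ ∃ h' ∈ closure (Orb g), ∃ q : ℚ[X],
      1 < (minpoly ℚ (aeval σ q)).natDegree ∧
      (minpoly ℚ (aeval σ q)).natDegree < d ∧ d ∣ I.card * (minpoly ℚ (aeval σ q)).natDegree ∧
      ∃ x : Fin d → ℝ, h' * rQ d (aeval σ q) = diagonal x * h' ∧ ∀ i ∈ I, ∀ j ∉ I, x i ≠ x j := by
  by_cases h0 : Inf0 g
  · exact Or.inl h0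
  obtain ⟨ν, hν, hnu⟩ := exists_nu h0
  obtain ⟨h'', hh'', hb⟩ := decouple' (by omega) hg hν hnu hh I σ hinv
  rcases main_blk hd hg hν hnu hh'' I hI hI' σ hirr hdeg hb with h1 | h1 | h1
  · exact Or.inl h1
  · exact Or.inr (Or.inl h1)
  · exact Or.inr (Or.inr ⟨h'', hh'', h1⟩)

/-- limits with arbitrary signs -/
lemma signs {g h : Matrix (Fin d) (Fin d) ℝ}
    (hh : h ∈ closure {h | ∃ (a : Fin d → ℝ) (γ : Matrix (Fin d) (Fin d) ℤ), |∏ i, a i| = 1 ∧
      |γ.det| = 1 ∧ h = diagonal a * g * γ.map (Int.cast : ℤ → ℝ)}) :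
    ∃ e : Fin d → ℝ, (∀ i, e i ≠ 0) ∧ diagonal e * h ∈ closure (Orb g) := by
  classical
  set sg : (Fin d → Bool) → Fin d → ℝ := fun p i => if p i then 1 else -1 with hsg
  have hsg2 : ∀ p i, sg p i * sg p i = 1 := by
    intro p i
    simp only [hsg]
    split_ifs <;> norm_num
  have hsub : {h | ∃ (a : Fin d → ℝ) (γ : Matrix (Fin d) (Fin d) ℤ), |∏ i, a i| = 1 ∧
      |γ.det| = 1 ∧ h = diagonal a * g * γ.map (Int.cast : ℤ → ℝ)}
      ⊆ ⋃ p : Fin d → Bool, {h | diagonal (sg p) * h ∈ Orb g} := by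
    rintro h ⟨a, γ, ha, hγ, rfl⟩
    have hane : ∀ i, a i ≠ 0 := by
      intro i h0
      rw [Finset.prod_eq_zero (Finset.mem_univ i) h0, abs_zero] at ha
      exact zero_ne_one ha
    refine Set.mem_iUnion.2 ⟨fun i => decide (0 < a i), fun i => |a i|, γ, fun i =>
      abs_pos.2 (hane i), by rw [← Finset.abs_prod]; exact ha, Int.isUnit_iff_abs_eq.2 hγ, ?_⟩
    rw [← Matrix.mul_assoc, ← Matrix.mul_assoc, diagonal_mul_diagonal]
    congr 3
    funext i
    simp only [hsg]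
    by_cases h2 : 0 < a i
    · simp [h2, abs_of_pos h2]
    · have h3 : a i < 0 := lt_of_le_of_ne (not_lt.1 h2) (hane _)
      simp [h2, abs_of_neg h3]
  have h1 := closure_mono hsub hh
  rw [closure_iUnion_of_finite] at h1
  obtain ⟨p, hp⟩ := Set.mem_iUnion.1 h1
  refine ⟨sg p, fun i h0 => ?_, ?_⟩
  · have := hsg2 p i
    rw [h0, mul_zero] at this
    exact zero_ne_one this
  · refine map_mem_closure (f := fun M : Matrix (Fin d) (Fin d) ℝ => diagonal (sg p) * M)
      (continuous_const.matrix_mul continuous_id) hp ?_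
    intro M hM
    exact hM

lemma span_signs {h : Matrix (Fin d) (Fin d) ℝ} {e : Fin d → ℝ} (he : ∀ i, e i ≠ 0)
    {I : Finset (Fin d)} {σ : Matrix (Fin d) (Fin d) ℚ}
    (hinv : ∀ i ∈ I, h i ᵥ* rQ d σ ∈ Submodule.span ℝ ((fun i => h i) '' (I : Set (Fin d)))) :
    ∀ i ∈ I, (diagonal e * h) i ᵥ* rQ d σ
      ∈ Submodule.span ℝ ((fun i => (diagonal e * h) i) '' (I : Set (Fin d))) := by
  have hrow : ∀ i, (diagonal e * h) i = e i • h i := by
    intro i
    funext j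
    rw [diagonal_mul]; rfl
  have hle : Submodule.span ℝ ((fun i => h i) '' (I : Set (Fin d)))
      ≤ Submodule.span ℝ ((fun i => (diagonal e * h) i) '' (I : Set (Fin d))) := by
    rw [Submodule.span_le]
    rintro v ⟨i, hi, rfl⟩
    have h1 : (fun i => h i) i = (e i)⁻¹ • (diagonal e * h) i := by
      rw [hrow, smul_smul, inv_mul_cancel₀ (he i), one_smul]
    rw [h1]
    exact Submodule.smul_mem _ _ (Submodule.subset_span ⟨i, hi, rfl⟩)
  intro i hi
  rw [hrow, smul_vecMul]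
  exact Submodule.smul_mem _ _ (hle (hinv i hi))

end Pool.Agent.Q64.IF
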