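import Pool.Agent.Q64.IF.Fin
import Pool.Agent.H715R2.Littlewood
import Pool.Agent.Y327.Full
import Pool.Agent.Y327.Meet

/-! # Limits of a counterexample to Littlewood's conjecture: no invariant spans -/

open Filter Topology Matrix H715R2

namespace Pool.Agent.Q64.IF

/-- the limits are no integral forms (as in the repository's `LimitPairs`) -/
lemma lw_not_propInt {α β ν : ℝ} (hν0 : 0 < ν)
    (hν : ∀ q p r : ℤ, q ≠ 0 → ν ≤ |(q : ℝ) * (α * q - p) * (β * q - r)|)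
    {h : Matrix (Fin 3) (Fin 3) ℝ} (hh : h ∈ YY (LLm α β)) :
    ¬ PropInt h := by
  intro hP
  have hnu := YY_nu hν hh
  have hdet0 : h.det ≠ 0 := by
    rw [← abs_ne_zero, abs_det_closure (YY_subset _ hh), LLm_det]
    exact one_ne_zero
  obtain ⟨A, -, hA1, -, hA2⟩ := Pool.Agent.H905R2.Opp.oppA _ (by norm_num) hdet0 hP (by
    intro p hp h0
    have h2 := hnu p hp
    rw [h0, abs_zero] at h2
    exact absurd h2 (not_le.2 hν0))
  obtain ⟨lam, hlam, hAg⟩ := Y327.eig_of_opp hdet0 hA1 hA2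
  obtain ⟨K, hfin, hrank, s, hs, hmem⟩ := exists_alg_row hdet0 A lam hlam hAg 0
  exact no_alg_point hν0 hν hh 0 s hs K hrank hmem

/-- no limit has a proper invariant span of rows -/
theorem lw_core {α β ν : ℝ} (hν0 : 0 < ν)
    (hν : ∀ q p r : ℤ, q ≠ 0 → ν ≤ |(q : ℝ) * (α * q - p) * (β * q - r)|)
    {h : Matrix (Fin 3) (Fin 3) ℝ} (hh : h ∈ YY (LLm α β)) (I : Finset (Fin 3))
    (hI : I.Nonempty) (hI' : I ≠ Finset.univ) (σ : Matrix (Fin 3) (Fin 3) ℚ)
    (hσ : ∀ c : ℚ, σ ≠ c • 1)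
    (hinv : ∀ i ∈ I, h i ᵥ* rQ 3 σ ∈ Submodule.span ℝ ((fun i => h i) '' (I : Set (Fin 3)))) :
    False := by
  have hnu := YY_nu hν hh
  have hdet0 : h.det ≠ 0 := by
    rw [← abs_ne_zero, abs_det_closure (YY_subset _ hh), LLm_det]
    exact one_ne_zero
  have hc1 : 0 < I.card := Finset.card_pos.2 hI
  have hc2 : I.card < 3 := by
    have := Finset.card_lt_univ_of_notMem (s := I) (x := (Finset.univ \ I).min' (by
      rw [Finset.sdiff_nonempty]
      intro h1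
      exact hI' (Finset.univ_subset_iff.1 h1))) (by
      have := Finset.min'_mem (Finset.univ \ I) (by
        rw [Finset.sdiff_nonempty]
        intro h1
        exact hI' (Finset.univ_subset_iff.1 h1))
      exact (Finset.mem_sdiff.1 this).2)
    simpa using this
  have hco : Nat.Coprime I.card 3 := by
    interval_cases I.card <;> decide
  rcases main_coprime le_rfl hdet0 (subset_closure (mem_orb_self h)) I hI hI' hco σ
    (Or.inr ⟨Nat.prime_three, hσ⟩) hinv with h1 | h1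
  · obtain ⟨x, hx, hx1⟩ := h1 ν hν0
    exact absurd (hnu x hx) (not_le.2 hx1)
  · exact lw_not_propInt hν0 hν hh h1

/-- block form -/
theorem lw_block {α β ν : ℝ} (hν0 : 0 < ν)
    (hν : ∀ q p r : ℤ, q ≠ 0 → ν ≤ |(q : ℝ) * (α * q - p) * (β * q - r)|)
    {h : Matrix (Fin 3) (Fin 3) ℝ} (hh : h ∈ YY (LLm α β)) (I : Finset (Fin 3))
    (hI : I.Nonempty) (hI' : I ≠ Finset.univ) (σ : Matrix (Fin 3) (Fin 3) ℚ)
    (hσ : ∀ c : ℚ, σ ≠ c • 1) : ∃ i ∈ I, ∃ j ∉ I, (h * rQ 3 σ * h⁻¹) i j ≠ 0 := by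
  by_contra hcon
  push Not at hcon
  have hdet0 : h.det ≠ 0 := by
    rw [← abs_ne_zero, abs_det_closure (YY_subset _ hh), LLm_det]
    exact one_ne_zero
  have hu : IsUnit h.det := isUnit_iff_ne_zero.2 hdet0
  refine lw_core hν0 hν hh I hI hI' σ hσ fun i hi => ?_
  have h1 : h i ᵥ* rQ 3 σ = ∑ j, (h * rQ 3 σ * h⁻¹) i j • h j := by
    have h2 : h * rQ 3 σ = (h * rQ 3 σ * h⁻¹) * h := by
      rw [Matrix.mul_assoc (h * rQ 3 σ), Matrix.nonsing_inv_mul _ hu, Matrix.mul_one]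
    have h3 : h i ᵥ* rQ 3 σ = (h * rQ 3 σ) i := rfl
    rw [h3]
    conv_lhs => rw [h2]
    funext k
    rw [Matrix.mul_apply, Finset.sum_apply]
    rfl
  rw [h1]
  refine Submodule.sum_mem _ fun j _ => ?_
  by_cases hj : j ∈ I
  · exact Submodule.smul_mem _ _ (Submodule.subset_span ⟨j, hj, rfl⟩)
  · rw [hcon i hi j hj, zero_smul]
    exact Submodule.zero_mem _

/-- the vectors `p₀ + α p₁ + β p₂`, `p₁`, `p₂`, where the `p j` are the columns of `P` -/
noncomputable def dirs (α β : ℝ) (P : Matrix (Fin 3) (Fin 3) ℤ) : Fin 3 → Fin 3 → ℝ :=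
  ![fun i => P i 0 + α * P i 1 + β * P i 2, fun i => P i 1, fun i => P i 2]

/-- reduced bases -/
def Reduced (α β C N : ℝ) (P : Matrix (Fin 3) (Fin 3) ℤ) : Prop :=
  |P.det| = 1 ∧ ∏ j, ‖dirs α β P j‖ ≤ C ∧ N ≤ ‖dirs α β P 1‖ ∧ N ≤ ‖dirs α β P 2‖

/-- the unipotent matrix of the pair -/
noncomputable def gM (α β : ℝ) : Matrix (Fin 3) (Fin 3) ℝ := !![1, 0, 0; α, 1, 0; β, 0, 1]

lemma dirs_eq (α β : ℝ) (P : Matrix (Fin 3) (Fin 3) ℤ) (i j : Fin 3) :
    dirs α β P j i = (zR P * gM α β) i j := by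
  fin_cases j <;> simp [dirs, gM, zR, Matrix.mul_apply, Fin.sum_univ_three] <;> ring

lemma gM_det (α β : ℝ) : (gM α β).det = 1 := by
  simp [gM, Matrix.det_fin_three]

/-- the sign matrix -/
noncomputable def SS : Matrix (Fin 3) (Fin 3) ℝ := diagonal ![1, -1, -1]

lemma LLm_gM (α β : ℝ) : LLm α β * gM α β = SS := by
  ext i j
  fin_cases i <;> fin_cases j <;>
    simp [LLm, gM, SS, Matrix.mul_apply, Fin.sum_univ_three]

lemma SS_SS : SS * SS = 1 := by
  rw [SS, diagonal_mul_diagonal, ← diagonal_one]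
  congr 1
  funext i
  fin_cases i <;> simp

/-- the matrix of the unit vectors -/
noncomputable def UU (α β : ℝ) (P : Matrix (Fin 3) (Fin 3) ℤ) : Matrix (Fin 3) (Fin 3) ℝ :=
  Matrix.of fun i j => dirs α β P j i / ‖dirs α β P j‖

lemma dirs_pos {α β : ℝ} {P : Matrix (Fin 3) (Fin 3) ℤ} (hP : |P.det| = 1) (j : Fin 3) :
    0 < ‖dirs α β P j‖ := by
  rw [norm_pos_iff]
  intro h0
  have h1 : (zR P * gM α β).det = 0 := by
    refine Matrix.det_eq_zero_of_column_eq_zero j fun i => ?_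
    rw [← dirs_eq, h0]; rfl
  rw [det_mul, gM_det, mul_one, det_zR] at h1
  have h2 : P.det = 0 := by exact_mod_cast h1
  rw [h2] at hP
  simp at hP

lemma UU_mul {α β : ℝ} {P : Matrix (Fin 3) (Fin 3) ℤ} (hP : |P.det| = 1) :
    UU α β P * diagonal (fun j => ‖dirs α β P j‖) = zR P * gM α β := by
  ext i j
  rw [mul_diagonal, ← dirs_eq, UU, Matrix.of_apply]
  exact div_mul_cancel₀ _ (dirs_pos hP j).ne'

lemma UU_le {α β : ℝ} {P : Matrix (Fin 3) (Fin 3) ℤ} (hP : |P.det| = 1) (i j : Fin 3) :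
    |UU α β P i j| ≤ 1 := by
  rw [UU, Matrix.of_apply, abs_div, abs_of_pos (dirs_pos hP j), div_le_one (dirs_pos hP j)]
  exact norm_le_pi_norm (dirs α β P j) i

lemma UU_det {α β : ℝ} {P : Matrix (Fin 3) (Fin 3) ℤ} (hP : |P.det| = 1) :
    |(UU α β P).det| * ∏ j, ‖dirs α β P j‖ = 1 := by
  have h1 := congrArg Matrix.det (UU_mul (α := α) (β := β) hP)
  rw [det_mul, det_diagonal, det_mul, gM_det, mul_one, det_zR] at h1
  have h2 := congrArg abs h1
  rw [abs_mul, abs_of_pos (Finset.prod_pos fun j _ => dirs_pos hP j)] at h2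
  rw [h2]
  exact_mod_cast hP

end Pool.Agent.Q64.IF
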