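import Pool.Agent.Q64.IF.LW

/-! # Limits of reduced bases -/

open Filter Topology Matrix H715R2

namespace Pool.Agent.Q64.IF

lemma LLm_mul_inv (α β : ℝ) {P : Matrix (Fin 3) (Fin 3) ℤ} (hP : IsUnit P.det) :
    LLm α β * zR P⁻¹ = SS * (zR P * gM α β)⁻¹ := by
  have hu : IsUnit (zR P * gM α β).det := by
    rw [det_mul, gM_det, mul_one, det_zR]
    rcases Int.isUnit_iff.1 hP with h | h <;> rw [h] <;> norm_num
  have h1 : LLm α β * zR P⁻¹ * (zR P * gM α β) = SS := by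
    rw [Matrix.mul_assoc, ← Matrix.mul_assoc (zR P⁻¹), zR_inv' hP, Matrix.one_mul, LLm_gM]
  rw [← h1, Matrix.mul_assoc, Matrix.mul_nonsing_inv _ hu, Matrix.mul_one]

/-- the point of the orbit given by a reduced basis -/
lemma orbit_point (α β : ℝ) {P : Matrix (Fin 3) (Fin 3) ℤ} (hP : |P.det| = 1) :
    |(UU α β P).det| ^ ((1 : ℝ) / 3) • (SS * (UU α β P)⁻¹) =
      diagonal (fun j => |(UU α β P).det| ^ ((1 : ℝ) / 3) * ‖dirs α β P j‖) * LLm α β * zR P⁻¹ := by
  have hPu : IsUnit P.det := Int.isUnit_iff_abs_eq.2 hP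
  have hD : (diagonal (fun j => ‖dirs α β P j‖) : Matrix (Fin 3) (Fin 3) ℝ) *
      diagonal (fun j => ‖dirs α β P j‖⁻¹) = 1 := by
    rw [diagonal_mul_diagonal, ← diagonal_one]
    congr 1
    funext j
    exact mul_inv_cancel₀ (dirs_pos hP j).ne'
  have hDi : (diagonal (fun j => ‖dirs α β P j‖) : Matrix (Fin 3) (Fin 3) ℝ)⁻¹ =
      diagonal (fun j => ‖dirs α β P j‖⁻¹) := Matrix.inv_eq_right_inv hD
  rw [Matrix.mul_assoc, LLm_mul_inv α β hPu, ← UU_mul hP, Matrix.mul_inv_rev, hDi, SS,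
    ← Matrix.mul_assoc, ← Matrix.mul_assoc, diagonal_mul_diagonal, diagonal_mul_diagonal,
    ← Matrix.smul_mul]
  congr 1
  rw [← diagonal_smul]
  congr 1
  funext j
  have := (dirs_pos (α := α) (β := β) hP j).ne'
  simp only [Pi.smul_apply, smul_eq_mul]
  field_simp

lemma seq_lim {α β ν : ℝ} (hν0 : 0 < ν)
    (hν : ∀ q p r : ℤ, q ≠ 0 → ν ≤ |(q : ℝ) * (α * q - p) * (β * q - r)|) (C : ℝ)
    (P : ℕ → Matrix (Fin 3) (Fin 3) ℤ) (hP : ∀ n : ℕ, Reduced α β C n (P n)) :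
    ∃ (φ : ℕ → ℕ) (U : Matrix (Fin 3) (Fin 3) ℝ), StrictMono φ ∧ U.det ≠ 0 ∧
      Tendsto (fun n => UU α β (P (φ n))) atTop (𝓝 U) ∧
      ∀ σ : Matrix (Fin 3) (Fin 3) ℚ, (∀ c : ℚ, σ ≠ c • 1) → ∀ J : Finset (Fin 3), J.Nonempty →
        J ≠ Finset.univ → ∃ j ∈ J, ∃ k ∉ J, (U⁻¹ * rQ 3 σ * U) k j ≠ 0 := by
  classical
  obtain ⟨U, -, φ, hφ, hlim⟩ := (isCompact_box (d := 3) 1).tendsto_subseq
    (x := fun n => UU α β (P n)) (fun n => UU_le (hP n).1)
  have hC : 0 < C := (Finset.prod_pos fun j _ => dirs_pos (hP 0).1 j).trans_le (hP 0).2.1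
  have hlow : ∀ n, 1 / C ≤ |(UU α β (P n)).det| := by
    intro n
    have h1 := UU_det (α := α) (β := β) (hP n).1
    have h2 : 0 < ∏ j, ‖dirs α β (P n) j‖ := Finset.prod_pos fun j _ => dirs_pos (hP n).1 j
    rw [div_le_iff₀ hC, ← h1]
    exact mul_le_mul_of_nonneg_left (hP n).2.1 (abs_nonneg _)
  have hdlim : Tendsto (fun n => |(UU α β (P (φ n))).det|) atTop (𝓝 |U.det|) :=
    (continuous_abs.tendsto _).comp (((Continuous.matrix_det continuous_id).tendsto U).comp hlim)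
  have hU1 : 1 / C ≤ |U.det| := ge_of_tendsto hdlim (Eventually.of_forall fun n => hlow _)
  have hU0 : U.det ≠ 0 := by
    intro h0
    rw [h0, abs_zero] at hU1
    have : 0 < 1 / C := by positivity
    linarith
  have hUu : IsUnit U.det := isUnit_iff_ne_zero.2 hU0
  refine ⟨φ, U, hφ, hU0, hlim, ?_⟩
  set t : ℝ := |U.det| ^ ((1 : ℝ) / 3) with ht
  have htpos : 0 < t := Real.rpow_pos_of_pos (abs_pos.2 hU0) _
  set h : Matrix (Fin 3) (Fin 3) ℝ := t • (SS * U⁻¹) with hh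
  -- the limit point
  have hx : Tendsto (fun n => |(UU α β (P (φ n))).det| ^ ((1 : ℝ) / 3) •
      (SS * (UU α β (P (φ n)))⁻¹)) atTop (𝓝 h) := by
    refine Tendsto.smul ?_ ?_
    · exact hdlim.rpow_const (Or.inr (by norm_num))
    · have h1 := tendsto_inv_mat' hlim hU0
      have h2 : Continuous fun M : Matrix (Fin 3) (Fin 3) ℝ => SS * M :=
        continuous_const.matrix_mul continuous_id
      exact (h2.tendsto _).comp h1
  have hmem : h ∈ YY (LLm α β) := by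
    rw [YY, Set.mem_iInter]
    intro N
    refine mem_closure_of_tendsto hx ?_
    set κ : ℝ := (1 / C) ^ ((1 : ℝ) / 3) with hκ
    have hκ0 : 0 < κ := Real.rpow_pos_of_pos (by positivity) _
    obtain ⟨N₁, hN₁⟩ := exists_nat_ge ((N : ℝ) / κ)
    filter_upwards [eventually_ge_atTop N₁] with n hn
    have h0 := hP (φ n)
    have hPd := h0.1
    have hPu : IsUnit (P (φ n)).det := Int.isUnit_iff_abs_eq.2 hPd
    have hκn : κ ≤ |(UU α β (P (φ n))).det| ^ ((1 : ℝ) / 3) :=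
      Real.rpow_le_rpow (by positivity) (hlow _) (by norm_num)
    have hUpos : 0 < |(UU α β (P (φ n))).det| := lt_of_lt_of_le (by positivity) (hlow _)
    have hlarge : ∀ j, (φ n : ℝ) ≤ ‖dirs α β (P (φ n)) j‖ →
        (N : ℝ) ≤ |(UU α β (P (φ n))).det| ^ ((1 : ℝ) / 3) * ‖dirs α β (P (φ n)) j‖ := by
      intro j hj
      have h1 : (N : ℝ) / κ ≤ ‖dirs α β (P (φ n)) j‖ := by
        refine hN₁.trans (le_trans ?_ hj)
        exact_mod_cast hn.trans hφ.le_apply
      rw [div_le_iff₀ hκ0, mul_comm] at h1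
      exact h1.trans (mul_le_mul_of_nonneg_right hκn (norm_nonneg _))
    refine ⟨fun j => |(UU α β (P (φ n))).det| ^ ((1 : ℝ) / 3) * ‖dirs α β (P (φ n)) j‖,
      (P (φ n))⁻¹, ?_, ?_, hlarge 1 h0.2.2.1, hlarge 2 h0.2.2.2, ?_, orbit_point α β hPd⟩
    · intro j
      exact mul_pos (Real.rpow_pos_of_pos hUpos _) (dirs_pos hPd j)
    · rw [Finset.prod_mul_distrib, Finset.prod_const, Finset.card_univ, Fintype.card_fin,
        ← Real.rpow_natCast, ← Real.rpow_mul hUpos.le]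
      norm_num
      exact UU_det hPd
    · exact (Matrix.isUnit_nonsing_inv_det_iff).2 hPu
  intro σ hσ J hJ hJ'
  have hJc : (Jᶜ).Nonempty := by
    rw [Finset.nonempty_iff_ne_empty]
    intro h1
    exact hJ' ((Finset.compl_eq_empty_iff J).1 h1)
  obtain ⟨k, hk, j, hj, hne⟩ := lw_block hν0 hν hmem Jᶜ hJc (by
    intro h1
    obtain ⟨j, hj⟩ := hJ
    have h2 : j ∈ Jᶜ := by rw [h1]; exact Finset.mem_univ _
    exact Finset.mem_compl.1 h2 hj) σ hσ
  rw [Finset.mem_compl] at hk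
  rw [Finset.mem_compl, not_not] at hj
  refine ⟨j, hj, k, hk, fun h0 => hne ?_⟩
  have hinv : h⁻¹ = t⁻¹ • (U * SS) := by
    refine Matrix.inv_eq_right_inv ?_
    rw [hh, Matrix.smul_mul, Matrix.mul_smul, smul_smul, mul_inv_cancel₀ htpos.ne', one_smul,
      Matrix.mul_assoc, ← Matrix.mul_assoc U⁻¹, Matrix.nonsing_inv_mul _ hUu, Matrix.one_mul, SS_SS]
  have h1 : h * rQ 3 σ * h⁻¹ = SS * (U⁻¹ * rQ 3 σ * U) * SS := by
    rw [hinv, hh, Matrix.smul_mul, Matrix.smul_mul, Matrix.mul_smul, smul_smul,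
      mul_inv_cancel₀ htpos.ne', one_smul]
    simp only [Matrix.mul_assoc]
  rw [h1, SS, mul_diagonal, diagonal_mul, h0, mul_zero, zero_mul]

/-- a vector with coordinates in a field of degree at most three is an eigenvector of a rational
matrix that is not scalar -/
lemma exists_sigma (K : IntermediateField ℚ ℝ) [FiniteDimensional ℚ K]
    (hK : Module.finrank ℚ K ≤ 3) (v : Fin 3 → ℝ) (hv : ∀ j, v j ∈ K) :
    ∃ σ : Matrix (Fin 3) (Fin 3) ℚ, (∀ c : ℚ, σ ≠ c • 1) ∧ ∃ θ : ℝ, rQ 3 σ *ᵥ v = θ • v := by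
  classical
  let w : Fin 3 → K := fun j => ⟨v j, hv j⟩
  by_cases hli : LinearIndependent ℚ w
  · have hcard : Fintype.card (Fin 3) = Module.finrank ℚ K := by
      refine le_antisymm hli.fintype_card_le_finrank ?_
      rw [Fintype.card_fin]; exact hK
    let b := basisOfLinearIndependentOfCardEqFinrank hli hcard
    have hb : ∀ j, b j = w j := fun j => by simp [b]
    have hw0 : w 0 ≠ 0 := hli.ne_zero 0
    set θ : K := w 1 / w 0 with hθ
    refine ⟨Matrix.of fun i j => b.repr (θ * w i) j, ?_, (θ : ℝ), ?_⟩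
    · intro c hc
      have h1 : θ * w 0 = c • w 0 := by
        rw [← b.sum_repr (θ * w 0)]
        have h2 : ∀ j, b.repr (θ * w 0) j = (c • (1 : Matrix (Fin 3) (Fin 3) ℚ)) 0 j := by
          intro j; rw [← hc]; rfl
        simp only [h2, hb]
        rw [Fin.sum_univ_three]
        simp
      rw [hθ, div_mul_cancel₀ _ hw0] at h1
      have h3 := Fintype.linearIndependent_iff.1 hli ![-c, 1, 0] (by
        rw [Fin.sum_univ_three]
        simp [h1]) 1
      simp at h3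
    · funext i
      have h1 : ∑ j, algebraMap K ℝ (b.repr (θ * w i) j • b j) = (θ : ℝ) * v i := by
        rw [← map_sum, b.sum_repr]; rfl
      rw [mulVec, dotProduct, Pi.smul_apply, smul_eq_mul]
      refine Eq.trans (Finset.sum_congr rfl fun j _ => ?_) h1
      rw [rQ_apply, Matrix.of_apply, hb, Algebra.smul_def, RingHom.map_mul]
      rfl
  · obtain ⟨g, hg, i, hi⟩ := Fintype.not_linearIndependent_iff.1 hli
    refine ⟨Matrix.of fun _ j => g j, ?_, 0, ?_⟩
    · intro c hc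
      have h1 : (Matrix.of fun (_ : Fin 3) j => g j) (i + 1) i =
        (c • (1 : Matrix (Fin 3) (Fin 3) ℚ)) (i + 1) i := by rw [hc]
      rw [Matrix.of_apply, Matrix.smul_apply, one_apply_ne (by fin_cases i <;> decide),
        smul_zero] at h1
      exact hi h1
    · funext k
      have h1 := congrArg (algebraMap K ℝ) hg
      rw [map_sum, map_zero] at h1
      rw [mulVec, dotProduct, Pi.smul_apply, smul_eq_mul, zero_mul]
      refine Eq.trans (Finset.sum_congr rfl fun j _ => ?_) h1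
      rw [rQ_apply, Matrix.of_apply, Algebra.smul_def, RingHom.map_mul]
      rfl

/-- **Directions.** -/
theorem lw_dir {α β ν : ℝ} (hν0 : 0 < ν)
    (hν : ∀ q p r : ℤ, q ≠ 0 → ν ≤ |(q : ℝ) * (α * q - p) * (β * q - r)|)
    (σ : Matrix (Fin 3) (Fin 3) ℚ) (hσ : ∀ c : ℚ, σ ≠ c • 1) (v : Fin 3 → ℝ) (θ : ℝ)
    (hθ : rQ 3 σ *ᵥ v = θ • v) (C : ℝ) (j : Fin 3) :
    ∃ N : ℕ, 0 < N ∧ ∀ P : Matrix (Fin 3) (Fin 3) ℤ, Reduced α β C N P → ∀ t : ℝ,
      1 / N * ‖dirs α β P j‖ ≤ ‖dirs α β P j - t • v‖ := by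
  classical
  by_contra hcon
  push Not at hcon
  choose P hP t ht using fun n : ℕ => hcon (n + 1) n.succ_pos
  have hP' : ∀ n : ℕ, Reduced α β C n (P n) := by
    intro n
    obtain ⟨h1, h2, h3, h4⟩ := hP n
    push_cast at h3 h4
    exact ⟨h1, h2, by linarith, by linarith⟩
  obtain ⟨φ, U, hφ, hU0, hlim, hU⟩ := seq_lim hν0 hν C P hP'
  have hUu : IsUnit U.det := isUnit_iff_ne_zero.2 hU0
  -- the column of `U` is a multiple of `v`
  have hcol : Tendsto (fun n => fun i => UU α β (P (φ n)) i j) atTop (𝓝 fun i => U i j) :=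
    tendsto_pi_nhds.2 fun i => by
      have h1 := tendsto_pi_nhds.1 hlim i
      exact tendsto_pi_nhds.1 h1 j
  have hclosed : IsClosed (Submodule.span ℝ {v} : Set (Fin 3 → ℝ)) :=
    Submodule.closed_of_finiteDimensional _
  have hdist : Tendsto (fun n => (t (φ n) / ‖dirs α β (P (φ n)) j‖) • v) atTop
      (𝓝 fun i => U i j) := by
    have h1 : Tendsto (fun n => (fun i => UU α β (P (φ n)) i j) -
        (t (φ n) / ‖dirs α β (P (φ n)) j‖) • v) atTop (𝓝 0) := by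
      rw [tendsto_zero_iff_norm_tendsto_zero]
      have h2 : Tendsto (fun n : ℕ => 1 / ((n : ℝ) + 1)) atTop (𝓝 0) :=
        tendsto_one_div_add_atTop_nhds_zero_nat
      refine squeeze_zero (fun n => norm_nonneg _) (fun n => ?_) (h2.comp hφ.tendsto_atTop)
      have hpos := dirs_pos (α := α) (β := β) (hP' (φ n)).1 j
      have h3 : (fun i => UU α β (P (φ n)) i j) - (t (φ n) / ‖dirs α β (P (φ n)) j‖) • v =
          ‖dirs α β (P (φ n)) j‖⁻¹ • (dirs α β (P (φ n)) j - t (φ n) • v) := by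
        funext i
        simp only [UU, Matrix.of_apply, Pi.sub_apply, Pi.smul_apply, smul_eq_mul]
        field_simp
      rw [h3, norm_smul, norm_inv, norm_norm, inv_mul_le_iff₀ hpos]
      have h4 := ht (φ n)
      push_cast at h4
      rw [Function.comp_apply, mul_comm]
      exact h4.le
    have h5 := hcol.sub h1
    simpa using h5
  have hmem : (fun i => U i j) ∈ Submodule.span ℝ {v} :=
    hclosed.mem_of_tendsto hdist (Eventually.of_forall fun n =>
      Submodule.smul_mem _ _ (Submodule.mem_span_singleton_self v))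
  obtain ⟨s, hs⟩ := Submodule.mem_span_singleton.1 hmem
  obtain ⟨j', hj', k, hk, hne⟩ := hU σ hσ {j} (Finset.singleton_nonempty j) (by
    intro h1
    have h2 := congrArg Finset.card h1
    simp at h2)
  rw [Finset.mem_singleton] at hj' hk
  subst hj'
  apply hne
  have h1 : (U⁻¹ * rQ 3 σ * U) k j' = (U⁻¹ *ᵥ (rQ 3 σ *ᵥ (fun i => U i j'))) k := by
    rw [mulVec_mulVec]; rfl
  have h2 : rQ 3 σ *ᵥ (fun i => U i j') = θ • (fun i => U i j') := by
    rw [← hs, mulVec_smul, hθ, smul_comm]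
  have h3 : U⁻¹ *ᵥ (fun i => U i j') = fun i => (U⁻¹ * U) i j' := rfl
  rw [h1, h2, mulVec_smul, h3, Matrix.nonsing_inv_mul _ hUu, Pi.smul_apply, smul_eq_mul,
    one_apply_ne hk, mul_zero]

lemma exists_large {S : Set (Matrix (Fin 3) (Fin 3) ℤ)} (hS : S.Infinite) (n : ℕ) :
    ∃ Q ∈ S, ∃ i j, (n : ℤ) < |Q i j| := by
  by_contra hcon
  push Not at hcon
  refine hS ((Set.finite_Icc (α := Fin 3 → Fin 3 → ℤ) (fun _ _ => -(n : ℤ))
    (fun _ _ => (n : ℤ))).subset ?_)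
  intro Q hQ
  exact ⟨fun i j => (abs_le.1 (hcon Q hQ i j)).1, fun i j => (abs_le.1 (hcon Q hQ i j)).2⟩

lemma Reduced.mono {α β C N N' : ℝ} {P : Matrix (Fin 3) (Fin 3) ℤ} (h : Reduced α β C N P)
    (hN : N' ≤ N) : Reduced α β C N' P :=
  ⟨h.1, h.2.1, hN.trans h.2.2.1, hN.trans h.2.2.2⟩

/-- **Links between reduced bases.** -/
theorem lw_links {α β ν : ℝ} (hν0 : 0 < ν)
    (hν : ∀ q p r : ℤ, q ≠ 0 → ν ≤ |(q : ℝ) * (α * q - p) * (β * q - r)|)
    (σ : Matrix (Fin 3) (Fin 3) ℚ) (hσ : ∀ c : ℚ, σ ≠ c • 1) (C : ℝ) :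
    ∃ N : ℕ, {Q : Matrix (Fin 3) (Fin 3) ℤ |
      zR Q * rQ 3 σ = rQ 3 σ * zR Q ∧ ∃ P : Matrix (Fin 3) (Fin 3) ℤ,
        Reduced α β C N P ∧ Reduced α β C N (Q * P)}.Finite := by
  classical
  by_contra hcon
  push Not at hcon
  choose Q hQ i₀ j₀ hij using fun n : ℕ => exists_large (hcon n) n
  choose hcomm P hP hQP using hQ
  obtain ⟨φ₁, U, hφ₁, hU0, hlimU, -⟩ := seq_lim hν0 hν C P hP
  obtain ⟨φ₂, W, hφ₂, hW0, hlimW, hW⟩ := seq_lim hν0 hν C (fun n => Q (φ₁ n) * P (φ₁ n))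
    (fun n => (hQP (φ₁ n)).mono (by exact_mod_cast hφ₁.le_apply))
  have hUu : IsUnit U.det := isUnit_iff_ne_zero.2 hU0
  have hWu : IsUnit W.det := isUnit_iff_ne_zero.2 hW0
  set ψ : ℕ → ℕ := fun n => φ₁ (φ₂ n) with hψ
  have hψm : StrictMono ψ := hφ₁.comp hφ₂
  -- the ratios
  set r : ℕ → Fin 3 → ℝ := fun n j =>
    ‖dirs α β (Q (ψ n) * P (ψ n)) j‖ / ‖dirs α β (P (ψ n)) j‖ with hr
  have hrpos : ∀ n j, 0 < r n j := fun n j =>
    div_pos (dirs_pos (hQP (ψ n)).1 j) (dirs_pos (hP (ψ n)).1 j)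
  set ρ : ℕ → ℝ := fun n => ∑ j, r n j with hρ
  have hρpos : ∀ n, 0 < ρ n := fun n => Finset.sum_pos (fun j _ => hrpos n j) Finset.univ_nonempty
  set δ : ℕ → Fin 3 → ℝ := fun n j => r n j / ρ n with hδ
  have hδ0 : ∀ n j, 0 ≤ δ n j := fun n j => (div_pos (hrpos n j) (hρpos n)).le
  have hδsum : ∀ n, ∑ j, δ n j = 1 := by
    intro n
    rw [hδ]
    simp only
    rw [← Finset.sum_div, div_self (hρpos n).ne']
  have hδ1 : ∀ n j, δ n j ≤ 1 := by
    intro n j
    rw [← hδsum n]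
    exact Finset.single_le_sum (f := fun j => δ n j) (fun j _ => hδ0 n j) (Finset.mem_univ j)
  obtain ⟨ε, -, φ₃, hφ₃, hlimδ⟩ := (isCompact_Icc (a := (0 : Fin 3 → ℝ)) (b := 1)).tendsto_subseq
    (x := δ) (fun n => ⟨fun j => hδ0 n j, fun j => hδ1 n j⟩)
  have hlimδj : ∀ j, Tendsto (fun n => δ (φ₃ n) j) atTop (𝓝 (ε j)) := fun j =>
    tendsto_pi_nhds.1 hlimδ j
  have hε0 : ∀ j, 0 ≤ ε j := fun j => ge_of_tendsto (hlimδj j) (Eventually.of_forall fun n => hδ0 _ _)
  have hεsum : ∑ j, ε j = 1 := by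
    have h1 := tendsto_finsetSum Finset.univ fun j _ => hlimδj j
    refine tendsto_nhds_unique h1 ?_
    simp only [hδsum]
    exact tendsto_const_nhds
  -- the matrices
  set X : ℕ → Matrix (Fin 3) (Fin 3) ℝ := fun n =>
    UU α β (Q (ψ (φ₃ n)) * P (ψ (φ₃ n))) * diagonal (δ (φ₃ n)) * (UU α β (P (ψ (φ₃ n))))⁻¹ with hX
  have hXlim : Tendsto X atTop (𝓝 (W * diagonal ε * U⁻¹)) := by
    refine Tendsto.mul (Tendsto.mul ?_ ?_) ?_
    · exact hlimW.comp hφ₃.tendsto_atTop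
    · exact ((continuous_id.matrix_diagonal).tendsto ε).comp hlimδ
    · exact tendsto_inv_mat' ((hlimU.comp hφ₂.tendsto_atTop).comp hφ₃.tendsto_atTop) hU0
  have hQX : ∀ n, zR (Q (ψ (φ₃ n))) = ρ (φ₃ n) • X n := by
    intro n
    set m := φ₃ n with hm
    have hP1 := (hP (ψ m)).1
    have hQ1 := (hQP (ψ m)).1
    have h1 := UU_mul (α := α) (β := β) hP1
    have h2 := UU_mul (α := α) (β := β) hQ1
    have hUn : IsUnit (UU α β (P (ψ m))).det := by
      rw [isUnit_iff_ne_zero]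
      intro h0
      have := UU_det (α := α) (β := β) hP1
      rw [h0, abs_zero, zero_mul] at this
      exact zero_ne_one this
    have h3 : zR (Q (ψ m)) * UU α β (P (ψ m)) * diagonal (fun j => ‖dirs α β (P (ψ m)) j‖) =
        UU α β (Q (ψ m) * P (ψ m)) * diagonal (fun j => ‖dirs α β (Q (ψ m) * P (ψ m)) j‖) := by
      rw [h2, Matrix.mul_assoc, h1, zR_mul, Matrix.mul_assoc]
    have h4 : zR (Q (ψ m)) * UU α β (P (ψ m)) =
        UU α β (Q (ψ m) * P (ψ m)) * diagonal (r m) := by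
      have h5 := congrArg (· * diagonal (fun j => ‖dirs α β (P (ψ m)) j‖⁻¹)) h3
      simp only [Matrix.mul_assoc, diagonal_mul_diagonal] at h5
      have h6 : (diagonal fun j => ‖dirs α β (P (ψ m)) j‖ * ‖dirs α β (P (ψ m)) j‖⁻¹ :
          Matrix (Fin 3) (Fin 3) ℝ) = 1 := by
        rw [← diagonal_one]
        congr 1
        funext j
        exact mul_inv_cancel₀ (dirs_pos hP1 j).ne'
      rw [h6, Matrix.mul_one] at h5
      rw [h5]
      rfl
    have h7 : diagonal (r m) = ρ m • diagonal (δ m) := by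
      rw [← diagonal_smul]
      congr 1
      funext j
      simp only [hδ, Pi.smul_apply, smul_eq_mul]
      rw [mul_div_cancel₀ _ (hρpos m).ne']
    rw [hX]
    simp only
    rw [← hm, ← Matrix.smul_mul, ← Matrix.mul_smul, ← h7, ← h4, Matrix.mul_assoc,
      Matrix.mul_nonsing_inv _ hUn, Matrix.mul_one]
  -- the limit commutes with `σ`
  have hXc : ∀ n, X n * rQ 3 σ = rQ 3 σ * X n := by
    intro n
    have h1 := hcomm (ψ (φ₃ n))
    rw [hQX n, Matrix.smul_mul, Matrix.mul_smul] at h1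
    exact smul_right_injective _ (hρpos (φ₃ n)).ne' h1
  have hlimc : W * diagonal ε * U⁻¹ * rQ 3 σ = rQ 3 σ * (W * diagonal ε * U⁻¹) := by
    refine tendsto_nhds_unique (hXlim.mul tendsto_const_nhds) ?_
    have h1 : (fun n => X n * rQ 3 σ) = fun n => rQ 3 σ * X n := funext hXc
    rw [h1]
    exact tendsto_const_nhds.mul hXlim
  have hkey : (W⁻¹ * rQ 3 σ * W) * diagonal ε = diagonal ε * (U⁻¹ * rQ 3 σ * U) := by
    have h1 : W⁻¹ * (W * diagonal ε * U⁻¹ * rQ 3 σ) * U =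
        W⁻¹ * (rQ 3 σ * (W * diagonal ε * U⁻¹)) * U := by rw [hlimc]
    have h2 : W⁻¹ * (W * diagonal ε * U⁻¹ * rQ 3 σ) * U = diagonal ε * (U⁻¹ * rQ 3 σ * U) := by
      simp only [← Matrix.mul_assoc]
      rw [Matrix.nonsing_inv_mul _ hWu, Matrix.one_mul]
    have h3 : W⁻¹ * (rQ 3 σ * (W * diagonal ε * U⁻¹)) * U = (W⁻¹ * rQ 3 σ * W) * diagonal ε := by
      simp only [Matrix.mul_assoc]
      rw [Matrix.nonsing_inv_mul _ hUu, Matrix.mul_one]
    rw [← h2, ← h3, h1]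
  set J : Finset (Fin 3) := Finset.univ.filter fun j => ε j ≠ 0 with hJ
  have hJne : J.Nonempty := by
    by_contra h1
    rw [Finset.not_nonempty_iff_eq_empty] at h1
    have h2 : ∀ j, ε j = 0 := by
      intro j
      by_contra h3
      have h4 : j ∈ J := Finset.mem_filter.2 ⟨Finset.mem_univ _, h3⟩
      rw [h1] at h4
      exact absurd h4 (Finset.notMem_empty _)
    simp only [h2, Finset.sum_const_zero] at hεsum
    exact zero_ne_one hεsum
  by_cases hJu : J = Finset.univ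
  · -- all ratios are comparable: the links are bounded
    have hεne : ∀ j, ε j ≠ 0 := by
      intro j
      have h1 : j ∈ J := by rw [hJu]; exact Finset.mem_univ _
      exact (Finset.mem_filter.1 h1).2
    set Y := W * diagonal ε * U⁻¹ with hY
    have hYd : 0 < |Y.det| := by
      rw [abs_pos, hY, det_mul, det_mul, det_diagonal]
      refine mul_ne_zero (mul_ne_zero hW0 (Finset.prod_ne_zero_iff.2 fun j _ => hεne j)) ?_
      exact ((Matrix.isUnit_nonsing_inv_det_iff).2 hUu).ne_zero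
    have hdet : Tendsto (fun n => |(X n).det|) atTop (𝓝 |Y.det|) :=
      (continuous_abs.tendsto _).comp (((Continuous.matrix_det continuous_id).tendsto Y).comp hXlim)
    have hent : ∀ i j, ∀ᶠ n in atTop, |X n i j| < |Y i j| + 1 := by
      intro i j
      have h1 : Tendsto (fun n => |X n i j|) atTop (𝓝 |Y i j|) :=
        (continuous_abs.tendsto _).comp (tendsto_pi_nhds.1 (tendsto_pi_nhds.1 hXlim i) j)
      exact h1.eventually (gt_mem_nhds (by linarith))
    have hent' := Filter.eventually_all.2 fun i => Filter.eventually_all.2 fun j => hent i j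
    have hev := hdet.eventually (lt_mem_nhds (half_lt_self hYd))
    set B : ℝ := ∑ i, ∑ j, (|Y i j| + 1) with hB
    have hBij : ∀ i j, |Y i j| + 1 ≤ B := by
      intro i j
      refine le_trans (Finset.single_le_sum (f := fun j => |Y i j| + 1)
        (fun j _ => by positivity) (Finset.mem_univ j)) ?_
      exact Finset.single_le_sum (f := fun i => ∑ j, (|Y i j| + 1))
        (fun i _ => Finset.sum_nonneg fun j _ => by positivity) (Finset.mem_univ i)
    obtain ⟨n₁, hn₁⟩ := exists_nat_gt ((1 + 2 / |Y.det|) * B)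
    obtain ⟨n, hn, hn2, hn3⟩ := (hent'.and (hev.and (eventually_ge_atTop n₁))).exists
    have h1 : ρ (φ₃ n) ^ 3 * |(X n).det| = 1 := by
      have h2 := congrArg Matrix.det (hQX n)
      rw [det_smul, Fintype.card_fin, det_zR] at h2
      have h3 := congrArg abs h2
      rw [abs_mul, abs_of_pos (pow_pos (hρpos _) 3)] at h3
      rw [← h3]
      have hd1 := (hQP (ψ (φ₃ n))).1
      have hd2 := (hP (ψ (φ₃ n))).1
      rw [det_mul, abs_mul, hd2, mul_one] at hd1
      exact_mod_cast hd1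
    have h2 : ρ (φ₃ n) ≤ 1 + 2 / |Y.det| := by
      by_contra h3
      push Not at h3
      have h4 : 0 < 2 / |Y.det| := by positivity
      have h5 : 1 ≤ ρ (φ₃ n) := by linarith
      have h6 : ρ (φ₃ n) ≤ ρ (φ₃ n) ^ 3 := le_self_pow₀ h5 (by norm_num)
      have h7 : 2 / |Y.det| < ρ (φ₃ n) ^ 3 := by linarith
      have h8 : 2 / |Y.det| * (|Y.det| / 2) = 1 := by field_simp
      have h9 : 2 / |Y.det| * (|Y.det| / 2) < ρ (φ₃ n) ^ 3 * |(X n).det| :=
        mul_lt_mul'' h7 hn2 h4.le (by positivity)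
      rw [h1, h8] at h9
      exact lt_irrefl _ h9
    have h3 := hij (ψ (φ₃ n))
    have h4 : (n : ℝ) < |zR (Q (ψ (φ₃ n))) (i₀ (ψ (φ₃ n))) (j₀ (ψ (φ₃ n)))| := by
      have h5 : (n : ℤ) < |Q (ψ (φ₃ n)) (i₀ (ψ (φ₃ n))) (j₀ (ψ (φ₃ n)))| := by
        refine lt_of_le_of_lt ?_ h3
        exact_mod_cast (hψm.comp hφ₃).le_apply
      have h6 : ((n : ℤ) : ℝ) < ((|Q (ψ (φ₃ n)) (i₀ (ψ (φ₃ n))) (j₀ (ψ (φ₃ n)))| : ℤ) : ℝ) := by
        exact_mod_cast h5
      rw [Int.cast_abs, Int.cast_natCast] at h6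
      exact h6
    rw [hQX n, Matrix.smul_apply, smul_eq_mul, abs_mul, abs_of_pos (hρpos _)] at h4
    have h5 : ρ (φ₃ n) * |X n (i₀ (ψ (φ₃ n))) (j₀ (ψ (φ₃ n)))| ≤ (1 + 2 / |Y.det|) * B :=
      mul_le_mul h2 ((hn _ _).le.trans (hBij _ _)) (abs_nonneg _) (by positivity)
    have h6 : (n₁ : ℝ) ≤ n := by exact_mod_cast hn3
    linarith
  · obtain ⟨j, hj, k, hk, hne⟩ := hW σ hσ J hJne hJu
    have hj' : ε j ≠ 0 := (Finset.mem_filter.1 hj).2
    have hk' : ε k = 0 := by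
      by_contra h1
      exact hk (Finset.mem_filter.2 ⟨Finset.mem_univ _, h1⟩)
    have h1 := congrFun (congrFun hkey k) j
    rw [mul_diagonal, diagonal_mul, hk', zero_mul] at h1
    exact hne ((mul_eq_zero.1 h1).resolve_right hj')

end Pool.Agent.Q64.IF
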