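import Pool.Agent.Q64.IF.Poly

/-! # Main theorems -/

open Filter Topology Matrix H715R2 NumberField Polynomial

namespace Pool.Agent.Q64.IF

variable {d : ℕ}

lemma exists_int_scale' (T : Matrix (Fin d) (Fin d) ℚ) : ∃ k : ℤ, 0 < k ∧
    ∃ S : Matrix (Fin d) (Fin d) ℤ, zR S = (k : ℝ) • rQ d T := by
  classical
  set D : ℤ := ∏ a, ∏ b, ((T a b).den : ℤ) with hD
  have hDpos : 0 < D := by
    refine Finset.prod_pos fun a _ => Finset.prod_pos fun b _ => ?_
    exact_mod_cast (T a b).den_pos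
  have h1 : ∀ a b, ∃ c : ℤ, (c : ℚ) = D * T a b := by
    intro a b
    have hdvd : ((T a b).den : ℤ) ∣ D := by
      refine (Finset.dvd_prod_of_mem (fun b => ((T a b).den : ℤ)) (Finset.mem_univ b)).trans ?_
      exact Finset.dvd_prod_of_mem (fun a => ∏ b, ((T a b).den : ℤ)) (Finset.mem_univ a)
    obtain ⟨e, he⟩ := hdvd
    refine ⟨e * (T a b).num, ?_⟩
    have h3 := Rat.num_div_den (T a b)
    have h4 : ((T a b).den : ℚ) ≠ 0 := by
      exact_mod_cast (T a b).den_ne_zero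
    conv_rhs => rw [← h3, he]
    push_cast
    field_simp
  choose c hc using h1
  refine ⟨D, hDpos, fun a b => c a b, ?_⟩
  ext a b
  rw [Matrix.smul_apply, rQ_apply, smul_eq_mul]
  show ((c a b : ℤ) : ℝ) = _
  have := congrArg (fun t : ℚ => (t : ℝ)) (hc a b)
  push_cast at this
  exact this

/-- block diagonal -/
def Blk (h : Matrix (Fin d) (Fin d) ℝ) (I : Finset (Fin d)) (M : Matrix (Fin d) (Fin d) ℝ) : Prop :=
  ∀ i j, ¬ (i ∈ I ↔ j ∈ I) → (h * M * h⁻¹) i j = 0

lemma blk_iff {h : Matrix (Fin d) (Fin d) ℝ} (hu : IsUnit h.det) (I : Finset (Fin d))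
    (M : Matrix (Fin d) (Fin d) ℝ) :
    Blk h I M ↔ Commute (h⁻¹ * oneI I * h) M := by
  have e1 : ∀ N : Matrix (Fin d) (Fin d) ℝ, h * (h⁻¹ * N * h) * h⁻¹ = N := by
    intro N
    calc h * (h⁻¹ * N * h) * h⁻¹ = (h * h⁻¹) * N * (h * h⁻¹) := by simp only [Matrix.mul_assoc]
      _ = N := by rw [Matrix.mul_nonsing_inv _ hu, Matrix.one_mul, Matrix.mul_one]
  have e2 : ∀ N : Matrix (Fin d) (Fin d) ℝ, h⁻¹ * (h * N * h⁻¹) * h = N := by
    intro N
    calc h⁻¹ * (h * N * h⁻¹) * h = (h⁻¹ * h) * N * (h⁻¹ * h) := by simp only [Matrix.mul_assoc]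
      _ = N := by rw [Matrix.nonsing_inv_mul _ hu, Matrix.one_mul, Matrix.mul_one]
  have e3 : ∀ N N' : Matrix (Fin d) (Fin d) ℝ, h * (N * N') * h⁻¹ = (h * N * h⁻¹) * (h * N' * h⁻¹) := by
    intro N N'
    calc h * (N * N') * h⁻¹ = h * N * 1 * N' * h⁻¹ := by
          rw [Matrix.mul_one]; simp only [Matrix.mul_assoc]
      _ = h * N * (h⁻¹ * h) * N' * h⁻¹ := by rw [Matrix.nonsing_inv_mul _ hu]
      _ = _ := by simp only [Matrix.mul_assoc]
  have h1 : Commute (h⁻¹ * oneI I * h) M ↔ oneI I * (h * M * h⁻¹) = (h * M * h⁻¹) * oneI I := by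
    constructor
    · intro hc
      have h2 : h * ((h⁻¹ * oneI I * h) * M) * h⁻¹ = h * (M * (h⁻¹ * oneI I * h)) * h⁻¹ := by
        rw [hc.eq]
      rwa [e3 (h⁻¹ * oneI I * h) M, e3 M (h⁻¹ * oneI I * h), e1] at h2
    · intro hc
      have h2 : h * ((h⁻¹ * oneI I * h) * M) * h⁻¹ = h * (M * (h⁻¹ * oneI I * h)) * h⁻¹ := by
        rw [e3 (h⁻¹ * oneI I * h) M, e3 M (h⁻¹ * oneI I * h), e1]; exact hc
      have h3 : h⁻¹ * (h * ((h⁻¹ * oneI I * h) * M) * h⁻¹) * h
          = h⁻¹ * (h * (M * (h⁻¹ * oneI I * h)) * h⁻¹) * h := by rw [h2]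
      rwa [e2, e2] at h3
  rw [h1]
  constructor
  · intro hb
    ext i j
    rw [oneI, diagonal_mul, mul_diagonal]
    by_cases hij : (i ∈ I ↔ j ∈ I)
    · by_cases hi : i ∈ I
      · rw [if_pos hi, if_pos (hij.1 hi), mul_comm]
      · rw [if_neg hi, if_neg (fun h => hi (hij.2 h)), mul_comm]
    · rw [hb i j hij]; ring
  · intro hc i j hij
    have h2 := congrFun (congrFun hc i) j
    rw [oneI, diagonal_mul, mul_diagonal] at h2
    by_cases hi : i ∈ I
    · have hj : j ∉ I := fun hj => hij ⟨fun _ => hj, fun _ => hi⟩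
      rw [if_pos hi, if_neg hj] at h2
      linarith
    · have hj : j ∈ I := by
        by_contra hj
        exact hij ⟨fun h => absurd h hi, fun h => absurd h hj⟩
      rw [if_neg hi, if_pos hj] at h2
      linarith

lemma blk_aeval {h : Matrix (Fin d) (Fin d) ℝ} (hu : IsUnit h.det) {I : Finset (Fin d)}
    {σ : Matrix (Fin d) (Fin d) ℚ} (hb : Blk h I (rQ d σ)) (q : ℚ[X]) :
    Blk h I (rQ d (aeval σ q)) := by
  rw [blk_iff hu] at hb ⊢
  induction q using Polynomial.induction_on' with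
  | add p q hp hq => rw [map_add, map_add]; exact hp.add_right hq
  | monomial n a =>
    rw [aeval_monomial, map_mul, map_pow]
    refine Commute.mul_right ?_ (hb.pow_right n)
    have h1 : rQ d ((algebraMap ℚ (Matrix (Fin d) (Fin d) ℚ)) a)
        = (a : ℝ) • (1 : Matrix (Fin d) (Fin d) ℝ) := by
      ext i j
      by_cases hij : i = j
      · subst hij; simp [Matrix.algebraMap_matrix_apply]
      · simp [Matrix.algebraMap_matrix_apply, hij]
    rw [h1]
    exact (Commute.one_right _).smul_right _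

lemma blk_smul {h : Matrix (Fin d) (Fin d) ℝ} {I : Finset (Fin d)} {M : Matrix (Fin d) (Fin d) ℝ}
    {k : ℝ} (hk : k ≠ 0) : Blk h I (k • M) ↔ Blk h I M := by
  unfold Blk
  refine forall_congr' fun i => forall_congr' fun j => forall_congr' fun _ => ?_
  rw [Matrix.mul_smul, Matrix.smul_mul, Matrix.smul_apply, smul_eq_mul, mul_eq_zero]
  simp [hk]

/-- invariant span -/
lemma decouple' (hd : 0 < d) {g h : Matrix (Fin d) (Fin d) ℝ} {ν : ℝ} (hg : g.det ≠ 0)
    (hν : 0 < ν) (hnu : HasNu g ν) (hh : h ∈ closure (Orb g)) (I : Finset (Fin d))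
    (σ : Matrix (Fin d) (Fin d) ℚ)
    (hinv : ∀ i ∈ I, h i ᵥ* rQ d σ ∈ Submodule.span ℝ ((fun i => h i) '' (I : Set (Fin d)))) :
    ∃ h'' ∈ closure (Orb g), Blk h'' I (rQ d σ) := by
  classical
  have hu : IsUnit h.det := isUnit_iff_ne_zero.2 (det_ne_of_mem hg hh)
  obtain ⟨k, hk, S, hS⟩ := exists_int_scale' σ
  have hk' : (k : ℝ) ≠ 0 := by exact_mod_cast hk.ne'
  obtain ⟨h'', hh'', hb⟩ := decouple hd hg hν hnu hh I S (by
    intro i hi j hj
    rw [hS, Matrix.mul_smul, Matrix.smul_mul, Matrix.smul_apply, smul_eq_mul]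
    have h1 : (h * rQ d σ * h⁻¹) i j = ((h i ᵥ* rQ d σ) ᵥ* h⁻¹) j := by
      rw [vecMul_vecMul, Matrix.mul_assoc]
      rfl
    rw [h1]
    have h2 : ∀ v ∈ Submodule.span ℝ ((fun i => h i) '' (I : Set (Fin d))), (v ᵥ* h⁻¹) j = 0 := by
      intro v hv
      induction hv using Submodule.span_induction with
      | mem v hv =>
        obtain ⟨l, hl, rfl⟩ := hv
        have h3 : (h l ᵥ* h⁻¹) j = (h * h⁻¹) l j := rfl
        simp only
        rw [h3, Matrix.mul_nonsing_inv _ hu, one_apply_ne]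
        rintro rfl
        exact hj hl
      | zero => rw [zero_vecMul]; rfl
      | add v w _ _ hv hw => rw [add_vecMul, Pi.add_apply, hv, hw, add_zero]
      | smul c v _ hv => rw [smul_vecMul, Pi.smul_apply, hv, smul_zero]
    rw [h2 _ (hinv i hi), mul_zero])
  refine ⟨h'', hh'', ?_⟩
  have h3 : Blk h'' I ((k : ℝ) • rQ d σ) := by rw [← hS]; exact hb
  exact (blk_smul hk').1 h3

lemma irred_of_coprime (hd : 0 < d) {g h : Matrix (Fin d) (Fin d) ℝ} {ν : ℝ} (hg : g.det ≠ 0)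
    (hν : 0 < ν) (hnu : HasNu g ν) (hh : h ∈ closure (Orb g)) (I : Finset (Fin d))
    (hco : Nat.Coprime I.card d) (σ : Matrix (Fin d) (Fin d) ℚ) (hb : Blk h I (rQ d σ)) :
    Irreducible (minpoly ℚ σ) := by
  have hu : IsUnit h.det := isUnit_iff_ne_zero.2 (det_ne_of_mem hg hh)
  have hne : Nonempty (Fin d) := ⟨⟨0, hd⟩⟩
  have hint : IsIntegral ℚ σ := Matrix.isIntegral σ
  have hm0 : minpoly ℚ σ ≠ 0 := minpoly.ne_zero hint
  refine ⟨minpoly.not_isUnit ℚ σ, fun a b hab => ?_⟩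
  by_contra hcon
  push Not at hcon
  obtain ⟨ha, hb'⟩ := hcon
  have hb0 : b ≠ 0 := by rintro rfl; rw [mul_zero] at hab; exact hm0 hab
  have ha0 : a ≠ 0 := by rintro rfl; rw [zero_mul] at hab; exact hm0 hab
  have h1 : aeval σ a ≠ 0 := by
    intro h0
    have h2 := minpoly.dvd ℚ σ h0
    rw [hab] at h2
    obtain ⟨c, hc⟩ := h2
    apply hb'
    rw [mul_assoc] at hc
    have h3 : b * c = 1 := mul_left_cancel₀ ha0 (by rw [mul_one]; exact hc.symm)
    exact IsUnit.of_mul_eq_one _ h3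
  have h2 : aeval σ b ≠ 0 := by
    intro h0
    have h2 := minpoly.dvd ℚ σ h0
    rw [hab] at h2
    obtain ⟨c, hc⟩ := h2
    apply ha
    rw [mul_comm a b, mul_assoc] at hc
    have h3 : a * c = 1 := mul_left_cancel₀ hb0 (by rw [mul_one]; exact hc.symm)
    exact IsUnit.of_mul_eq_one _ h3
  have h3 : aeval σ a * aeval σ b = 0 := by
    rw [← map_mul, ← hab, minpoly.aeval]
  have h4 : (aeval σ a).det = 0 := by
    by_contra hdet
    apply h2
    have h5 : (aeval σ a)⁻¹ * (aeval σ a * aeval σ b) = 0 := by rw [h3, Matrix.mul_zero]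
    rwa [← Matrix.mul_assoc, Matrix.nonsing_inv_mul _ (isUnit_iff_ne_zero.2 hdet),
      Matrix.one_mul] at h5
  obtain ⟨k, hk, T, hT⟩ := exists_int_scale' (aeval σ a)
  have hk' : (k : ℝ) ≠ 0 := by exact_mod_cast hk.ne'
  refine no_cov hd hg hν hnu hh I hco T ?_ ?_ ?_
  · rintro rfl
    apply h1
    have h5 : (k : ℝ) • rQ d (aeval σ a) = 0 := by
      rw [← hT]; ext i j; simp [zR]
    have h6 := (smul_eq_zero.1 h5).resolve_left hk'
    ext i j
    have h7 := congrFun (congrFun h6 i) j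
    rw [rQ_apply, Matrix.zero_apply] at h7
    rw [Matrix.zero_apply]
    exact_mod_cast h7
  · have h5 : (zR T).det = 0 := by
      rw [hT, det_smul]
      have h6 : (rQ d (aeval σ a)).det = 0 := by
        have h7 := (algebraMap ℚ ℝ).map_det (aeval σ a)
        rw [h4, map_zero] at h7
        exact h7.symm
      rw [h6, mul_zero]
    rw [det_zR] at h5
    exact_mod_cast h5
  · rw [hT]
    exact (blk_smul hk').2 (blk_aeval hu hb a)

end Pool.Agent.Q64.IF
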