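import Pool.Agent.H715R2.MinimalSet
import Pool.Agent.H715R2.LimitAlg

/-! # Paths in an orbit closure -/

open Filter Topology Matrix H715R2

namespace Pool.Agent.Q64.IF

variable {d : ℕ}

lemma dense_nonneg {r r' : Fin d → ℝ}
    (h : ∀ m : Fin d → ℤ, 0 ≤ (r ⬝ᵥ iR m) * (r' ⬝ᵥ iR m)) (x : Fin d → ℝ) :
    0 ≤ (r ⬝ᵥ x) * (r' ⬝ᵥ x) := by
  set y : ℕ → Fin d → ℝ := fun n => ((n : ℝ) + 1)⁻¹ • iR (fun j => ⌊((n : ℝ) + 1) * x j⌋) with hy
  have hlim : Tendsto y atTop (𝓝 x) := by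
    rw [tendsto_pi_nhds]
    intro j
    have h0 : Tendsto (fun n : ℕ => ((n : ℝ) + 1)⁻¹) atTop (𝓝 0) := by
      have := tendsto_one_div_add_atTop_nhds_zero_nat (𝕜 := ℝ)
      simpa using this
    have h1 : Tendsto (fun n : ℕ => x j - ((n : ℝ) + 1)⁻¹) atTop (𝓝 (x j)) := by
      simpa using h0.const_sub (x j)
    refine tendsto_of_tendsto_of_tendsto_of_le_of_le h1 tendsto_const_nhds (fun n => ?_)
      (fun n => ?_)
    · have hp : (0 : ℝ) < (n : ℝ) + 1 := by positivity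
      have := (Int.sub_one_lt_floor (((n : ℝ) + 1) * x j)).le
      simp only [hy, iR, Pi.smul_apply, smul_eq_mul]
      rw [le_inv_mul_iff₀ hp, mul_sub, mul_inv_cancel₀ hp.ne']
      exact this
    · have hp : (0 : ℝ) < (n : ℝ) + 1 := by positivity
      have := Int.floor_le (((n : ℝ) + 1) * x j)
      simp only [hy, iR, Pi.smul_apply, smul_eq_mul]
      rw [inv_mul_le_iff₀ hp]
      exact this
  have hc : Continuous fun x : Fin d → ℝ => (r ⬝ᵥ x) * (r' ⬝ᵥ x) := by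
    simp only [dotProduct]
    fun_prop
  refine ge_of_tendsto' ((hc.tendsto x).comp hlim) fun n => ?_
  simp only [Function.comp_apply, hy, dotProduct_smul, smul_eq_mul]
  have hp : (0 : ℝ) < ((n : ℝ) + 1)⁻¹ := by positivity
  have := h (fun j => ⌊((n : ℝ) + 1) * x j⌋)
  calc (0:ℝ) ≤ (((n : ℝ) + 1)⁻¹ * ((n : ℝ) + 1)⁻¹) *
        ((r ⬝ᵥ iR fun j => ⌊((n : ℝ) + 1) * x j⌋) * (r' ⬝ᵥ iR fun j => ⌊((n : ℝ) + 1) * x j⌋)) := by
        positivity
    _ = _ := by ring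

/-- a linear form is determined by its signs at the integer points up to a positive factor -/
lemma row_of_signs {r r' : Fin d → ℝ} (hr : r ≠ 0) (hr' : r' ≠ 0)
    (h : ∀ m : Fin d → ℤ, 0 ≤ (r ⬝ᵥ iR m) * (r' ⬝ᵥ iR m)) : ∃ a : ℝ, 0 < a ∧ r' = a • r := by
  have hQ := dense_nonneg h
  have hrr : 0 < r ⬝ᵥ r := by
    rw [lt_iff_le_and_ne]
    refine ⟨Finset.sum_nonneg fun i _ => mul_self_nonneg _, fun h0 => hr ?_⟩
    exact dotProduct_self_eq_zero.1 h0.symm
  have hker : ∀ x : Fin d → ℝ, r ⬝ᵥ x = 0 → r' ⬝ᵥ x = 0 := by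
    intro x hx
    have h1 : ∀ t : ℝ, 0 ≤ (t * (r ⬝ᵥ r)) * (r' ⬝ᵥ x + t * (r' ⬝ᵥ r)) := by
      intro t
      have := hQ (x + t • r)
      rw [dotProduct_add, dotProduct_add, dotProduct_smul, dotProduct_smul, hx, zero_add] at this
      simpa using this
    have h2 : ∀ t : ℝ, 0 < t → 0 ≤ r' ⬝ᵥ x + t * (r' ⬝ᵥ r) := fun t ht => by
      have := h1 t
      exact (mul_nonneg_iff_of_pos_left (by positivity)).1 this
    have h3 : ∀ t : ℝ, 0 < t → r' ⬝ᵥ x - t * (r' ⬝ᵥ r) ≤ 0 := fun t ht => by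
      have := h1 (-t)
      have h4 : 0 ≤ (t * (r ⬝ᵥ r)) * (-(r' ⬝ᵥ x - t * (r' ⬝ᵥ r))) := by linarith
      have := (mul_nonneg_iff_of_pos_left (by positivity)).1 h4
      linarith
    have hl1 : Tendsto (fun n : ℕ => r' ⬝ᵥ x + (1 / ((n : ℝ) + 1)) * (r' ⬝ᵥ r)) atTop
        (𝓝 (r' ⬝ᵥ x + 0 * (r' ⬝ᵥ r))) :=
      (tendsto_one_div_add_atTop_nhds_zero_nat.mul_const _).const_add _
    have hl2 : Tendsto (fun n : ℕ => r' ⬝ᵥ x - (1 / ((n : ℝ) + 1)) * (r' ⬝ᵥ r)) atTop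
        (𝓝 (r' ⬝ᵥ x - 0 * (r' ⬝ᵥ r))) :=
      (tendsto_one_div_add_atTop_nhds_zero_nat.mul_const _).const_sub _
    have h5 := ge_of_tendsto' hl1 fun n => h2 _ (by positivity)
    have h6 := le_of_tendsto' hl2 fun n => h3 _ (by positivity)
    linarith
  have heq : r' = ((r' ⬝ᵥ r) / (r ⬝ᵥ r)) • r := by
    have h1 : ∀ x, r' ⬝ᵥ x = ((r' ⬝ᵥ r) / (r ⬝ᵥ r)) * (r ⬝ᵥ x) := by
      intro x
      have h2 := hker (x - ((r ⬝ᵥ x) / (r ⬝ᵥ r)) • r) (by
        rw [dotProduct_sub, dotProduct_smul, smul_eq_mul, div_mul_cancel₀ _ hrr.ne', sub_self])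
      rw [dotProduct_sub, dotProduct_smul, smul_eq_mul, sub_eq_zero] at h2
      rw [h2]; ring
    funext j
    have h2 := h1 (Pi.single j 1)
    simpa using h2
  refine ⟨(r' ⬝ᵥ r) / (r ⬝ᵥ r), ?_, heq⟩
  rw [lt_iff_le_and_ne]
  refine ⟨?_, fun h0 => hr' ?_⟩
  · have := hQ r
    exact div_nonneg ((mul_nonneg_iff_of_pos_left hrr).1 this) hrr.le
  · rw [heq, ← h0, zero_smul]

/-- a path of matrices whose products are bounded below stays in one orbit of the positive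
diagonal matrices -/
theorem path_diag (hd : 0 < d) {ν : ℝ} (hν : 0 < ν) (c : ℝ → Matrix (Fin d) (Fin d) ℝ) (hc : Continuous c)
    (hnu : ∀ t, HasNu (c t) ν) (t : ℝ) : ∃ a : Fin d → ℝ, (∀ i, 0 < a i) ∧
      c t = diagonal a * c 0 := by
  have hne : ∀ s i (m : Fin d → ℤ), m ≠ 0 → c s i ⬝ᵥ iR m ≠ 0 := by
    intro s i m hm h0
    have h1 := hnu s m hm
    have h2 : FF (c s) (iR m) = 0 := by
      rw [FF_eq]
      exact Finset.prod_eq_zero (Finset.mem_univ i) h0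
    rw [h2, abs_zero] at h1
    linarith
  have hcont : ∀ i (m : Fin d → ℤ), Continuous fun s => c s i ⬝ᵥ iR m := by
    intro i m
    simp only [dotProduct]
    refine continuous_finsetSum _ fun j _ => ?_
    exact ((continuous_apply_apply i j).comp hc).mul continuous_const
  have hsign : ∀ i (m : Fin d → ℤ), 0 ≤ (c 0 i ⬝ᵥ iR m) * (c t i ⬝ᵥ iR m) := by
    intro i m
    rcases eq_or_ne m 0 with rfl | hm
    · have : iR (0 : Fin d → ℤ) = 0 := by funext j; simp [iR]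
      simp [this]
    · by_contra hcon
      push Not at hcon
      have hcon' := hcon
      rcases lt_or_gt_of_ne (hne 0 i m hm) with h1 | h1
      · have h2 : 0 < c t i ⬝ᵥ iR m := by
          by_contra h3
          push Not at h3
          have := mul_nonneg_of_nonpos_of_nonpos h1.le h3
          linarith
        have := mem_range_of_exists_le_of_exists_ge (hcont i m) ⟨0, h1.le⟩ ⟨t, h2.le⟩
        obtain ⟨s, hs⟩ := this
        exact hne s i m hm hs
      · have h2 : c t i ⬝ᵥ iR m < 0 := by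
          by_contra h3
          push Not at h3
          have := mul_nonneg h1.le h3
          linarith
        have := mem_range_of_exists_le_of_exists_ge (hcont i m) ⟨t, h2.le⟩ ⟨0, h1.le⟩
        obtain ⟨s, hs⟩ := this
        exact hne s i m hm hs
  have hrow : ∀ s i, c s i ≠ 0 := by
    intro s i h0
    have h1 := hne s i (Pi.single ⟨0, hd⟩ 1) (by
      intro h
      have := congrFun h ⟨0, hd⟩
      simp at this)
    apply h1
    rw [h0, zero_dotProduct]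
  choose a ha haeq using fun i => row_of_signs (hrow 0 i) (hrow t i) (hsign i)
  refine ⟨a, ha, ?_⟩
  ext i j
  rw [diagonal_mul, haeq i]
  rfl

end Pool.Agent.Q64.IF
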