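import Pool.Agent.Q64.IF.Tube2

/-! # Characteristic polynomials and the algebraic row -/

open Filter Topology Matrix H715R2 NumberField Polynomial

namespace Pool.Agent.Q64.IF

variable {d : ℕ}

lemma cQ_aeval (T : Matrix (Fin d) (Fin d) ℚ) (q : ℚ[X]) :
    cQ d (aeval T q) = aeval (cQ d T) (q.map (algebraMap ℚ ℂ)) := by
  refine Polynomial.map_aeval_eq_aeval_map (φ := algebraMap ℚ ℂ) (ψ := cQ d) ?_ q T
  ext r i j
  by_cases hij : i = j <;> simp [Matrix.algebraMap_matrix_apply, hij]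

lemma rQ_aeval (T : Matrix (Fin d) (Fin d) ℚ) (q : ℚ[X]) :
    rQ d (aeval T q) = aeval (rQ d T) (q.map (algebraMap ℚ ℝ)) := by
  refine Polynomial.map_aeval_eq_aeval_map (φ := algebraMap ℚ ℝ) (ψ := rQ d) ?_ q T
  ext r i j
  by_cases hij : i = j <;> simp [Matrix.algebraMap_matrix_apply, hij]

/-- left eigenvectors and polynomials -/
lemma vecMul_aeval {F : Type*} [Field F] (A : Matrix (Fin d) (Fin d) F) (v : Fin d → F) (θ : F)
    (hv : v ᵥ* A = θ • v) (q : F[X]) : v ᵥ* aeval A q = (q.eval θ) • v := by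
  induction q using Polynomial.induction_on' with
  | add p q hp hq => rw [map_add, vecMul_add, hp, hq, eval_add, add_smul]
  | monomial n a =>
    have h1 : ∀ n, v ᵥ* A ^ n = θ ^ n • v := by
      intro n
      induction n with
      | zero => simp
      | succ n ih => rw [pow_succ, ← vecMul_vecMul, ih, smul_vecMul, hv, smul_smul, pow_succ]
    rw [aeval_monomial, ← vecMul_vecMul, eval_monomial]
    have h2 : v ᵥ* (algebraMap F (Matrix (Fin d) (Fin d) F)) a = a • v := by
      rw [Algebra.algebraMap_eq_smul_one, vecMul_smul, vecMul_one]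
    rw [h2, smul_vecMul, h1, smul_smul]

lemma root_minpoly (T : Matrix (Fin d) (Fin d) ℚ) (θ : ℂ)
    (hθ : (T.charpoly.map (algebraMap ℚ ℂ)).eval θ = 0) :
    ((minpoly ℚ T).map (algebraMap ℚ ℂ)).eval θ = 0 := by
  have h1 : (T.charpoly.map (algebraMap ℚ ℂ)) = (cQ d T).charpoly := by
    rw [← Matrix.charpoly_map]; rfl
  rw [h1, Matrix.eval_charpoly] at hθ
  obtain ⟨v, hv, hv2⟩ := Matrix.exists_vecMul_eq_zero_iff.2 hθ
  have h2 : v ᵥ* cQ d T = θ • v := by
    rw [vecMul_sub, sub_eq_zero] at hv2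
    rw [← hv2]
    funext j
    simp [Matrix.scalar_apply, vecMul_diagonal, mul_comm]
  have h3 := vecMul_aeval (cQ d T) v θ h2 ((minpoly ℚ T).map (algebraMap ℚ ℂ))
  rw [← cQ_aeval, minpoly.aeval, map_zero, vecMul_zero] at h3
  rcases smul_eq_zero.1 h3.symm with h4 | h4
  · exact h4
  · exact absurd h4 hv

/-- if the minimal polynomial is irreducible, then the characteristic polynomial is a power of it -/
lemma charpoly_eq_pow (T : Matrix (Fin d) (Fin d) ℚ) (hirr : Irreducible (minpoly ℚ T)) :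
    ∃ e : ℕ, T.charpoly = minpoly ℚ T ^ e ∧ e * (minpoly ℚ T).natDegree = d := by
  have hm : (minpoly ℚ T).Monic := minpoly.monic (Matrix.isIntegral T)
  have hc : T.charpoly.Monic := T.charpoly_monic
  obtain ⟨e, r, hr, he⟩ : ∃ (e : ℕ) (r : ℚ[X]), ¬ minpoly ℚ T ∣ r ∧
      T.charpoly = minpoly ℚ T ^ e * r := by
    have hfin : FiniteMultiplicity (minpoly ℚ T) T.charpoly :=
      FiniteMultiplicity.of_not_isUnit hirr.not_isUnit hc.ne_zero
    obtain ⟨r, hr1, hr2⟩ := hfin.exists_eq_pow_mul_and_not_dvd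
    exact ⟨_, r, hr2, hr1⟩
  have hr0 : r ≠ 0 := by
    rintro rfl
    rw [mul_zero] at he
    exact hc.ne_zero he
  have hrm : r.Monic := by
    have h1 : (minpoly ℚ T ^ e * r).Monic := he ▸ hc
    exact (hm.pow e).of_mul_monic_left h1
  have hr1 : r = 1 := by
    by_contra hne
    have hdeg : (r.map (algebraMap ℚ ℂ)).degree ≠ 0 := by
      rw [degree_map]
      intro h0
      exact hne (hrm.natDegree_eq_zero.1 (natDegree_eq_of_degree_eq_some h0))
    obtain ⟨θ, hθ⟩ := IsAlgClosed.exists_root _ hdeg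
    have h2 : (T.charpoly.map (algebraMap ℚ ℂ)).eval θ = 0 := by
      rw [he, Polynomial.map_mul, eval_mul]
      rw [IsRoot.def] at hθ
      rw [hθ, mul_zero]
    have h3 := root_minpoly T θ h2
    have h4 : minpoly ℚ θ = minpoly ℚ T := by
      refine (minpoly.eq_of_irreducible_of_monic hirr ?_ hm).symm
      rwa [eval_map_algebraMap] at h3
    apply hr
    rw [← h4]
    refine minpoly.dvd ℚ θ ?_
    rw [IsRoot.def, eval_map_algebraMap] at hθ
    exact hθ
  refine ⟨e, by rw [he, hr1, mul_one], ?_⟩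
  have h5 := T.charpoly_natDegree_eq_dim
  rw [he, hr1, mul_one, natDegree_pow, Fintype.card_fin] at h5
  exact h5

/-- multiplicities of the eigenvalues -/
lemma mult {T : Matrix (Fin d) (Fin d) ℚ} {h : Matrix (Fin d) (Fin d) ℝ} (hu : IsUnit h.det)
    {x : Fin d → ℝ} (hT : h * rQ d T = diagonal x * h) (hirr : Irreducible (minpoly ℚ T)) {e : ℕ}
    (he : T.charpoly = minpoly ℚ T ^ e) (i : Fin d) :
    (Finset.univ.filter fun j => x j = x i).card = e := by
  classical
  have h1 : T.charpoly.map (algebraMap ℚ ℝ) = ∏ j, (X - C (x j)) := by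
    have h2 : T.charpoly.map (algebraMap ℚ ℝ) = (rQ d T).charpoly := by
      rw [← Matrix.charpoly_map]; rfl
    have h3 : rQ d T = h⁻¹ * (diagonal x * h) := by
      rw [← hT, ← Matrix.mul_assoc, Matrix.nonsing_inv_mul _ hu, Matrix.one_mul]
    rw [h2, h3, Matrix.charpoly_mul_comm, Matrix.mul_assoc, Matrix.mul_nonsing_inv _ hu,
      Matrix.mul_one, Matrix.charpoly_diagonal]
  have h2 : (T.charpoly.map (algebraMap ℚ ℝ)).roots = Multiset.map x Finset.univ.val := by
    rw [h1]
    have := Polynomial.roots_multiset_prod_X_sub_C (Multiset.map x Finset.univ.val)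
    rw [Multiset.map_map] at this
    exact this
  have h3 : (T.charpoly.map (algebraMap ℚ ℝ)).roots.count (x i)
      = (Finset.univ.filter fun j => x j = x i).card := by
    rw [h2, Multiset.count_map, Finset.card_def, Finset.filter_val]
    congr 1
    refine Multiset.filter_congr fun j _ => ?_
    exact eq_comm
  have h4 : (T.charpoly.map (algebraMap ℚ ℝ)).roots.count (x i)
      = e * ((minpoly ℚ T).map (algebraMap ℚ ℝ)).roots.count (x i) := by
    rw [he, Polynomial.map_pow, roots_pow, Multiset.count_nsmul]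
  have hev : (h i) ᵥ* rQ d T = x i • h i := by
    have h5 : (h i) ᵥ* rQ d T = (h * rQ d T) i := rfl
    rw [h5, hT]
    funext j
    rw [diagonal_mul]; rfl
  have hhi : h i ≠ 0 := by
    intro h0
    exact hu.ne_zero (Matrix.det_eq_zero_of_row_eq_zero i fun j => congrFun h0 j)
  have hroot : ((minpoly ℚ T).map (algebraMap ℚ ℝ)).IsRoot (x i) := by
    have h5 := vecMul_aeval (rQ d T) (h i) (x i) hev ((minpoly ℚ T).map (algebraMap ℚ ℝ))
    rw [← rQ_aeval, minpoly.aeval, map_zero, vecMul_zero] at h5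
    exact (smul_eq_zero.1 h5.symm).resolve_right hhi
  have hne : (minpoly ℚ T).map (algebraMap ℚ ℝ) ≠ 0 :=
    (Polynomial.map_ne_zero_iff (algebraMap ℚ ℝ).injective).2 hirr.ne_zero
  have hcount : ((minpoly ℚ T).map (algebraMap ℚ ℝ)).roots.count (x i) = 1 := by
    refine Multiset.count_eq_one_of_mem ?_ ((Polynomial.mem_roots hne).2 hroot)
    exact nodup_roots (hirr.separable.map)
  rw [← h3, h4, hcount, mul_one]

lemma dvd_card {T : Matrix (Fin d) (Fin d) ℚ} {h : Matrix (Fin d) (Fin d) ℝ} (hu : IsUnit h.det)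
    {x : Fin d → ℝ} (hT : h * rQ d T = diagonal x * h) (hirr : Irreducible (minpoly ℚ T)) {e : ℕ}
    (he : T.charpoly = minpoly ℚ T ^ e) {I : Finset (Fin d)}
    (hsep : ∀ i ∈ I, ∀ j ∉ I, x i ≠ x j) : e ∣ I.card := by
  classical
  rw [Finset.card_eq_sum_card_image x I]
  refine Finset.dvd_sum fun y hy => ?_
  obtain ⟨i, hi, rfl⟩ := Finset.mem_image.1 hy
  have h1 : I.filter (fun j => x j = x i) = Finset.univ.filter fun j => x j = x i := by
    ext j
    simp only [Finset.mem_filter, Finset.mem_univ, true_and, and_iff_right_iff_imp]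
    intro hj
    by_contra hjI
    exact hsep i hi j hjI hj.symm
  rw [h1, mult hu hT hirr he]

/-- arbitrarily small values -/
def Inf0 (g : Matrix (Fin d) (Fin d) ℝ) : Prop :=
  ∀ ε : ℝ, 0 < ε → ∃ x : Fin d → ℤ, x ≠ 0 ∧ |FF g (iR x)| < ε

lemma exists_nu {g : Matrix (Fin d) (Fin d) ℝ} (h : ¬ Inf0 g) : ∃ ν : ℝ, 0 < ν ∧ HasNu g ν := by
  unfold Inf0 at h
  push Not at h
  obtain ⟨ε, hε, h⟩ := h
  exact ⟨ε, hε, fun m hm => h m hm⟩

/-- an eigenvector row -/
theorem alg_row (hd : 3 ≤ d) {g h : Matrix (Fin d) (Fin d) ℝ} (hg : g.det ≠ 0)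
    (hh : h ∈ closure (Orb g)) {T : Matrix (Fin d) (Fin d) ℚ} {x : Fin d → ℝ}
    (hx : Function.Injective x) (hT : h * rQ d T = diagonal x * h) : Inf0 g ∨ PropInt g := by
  classical
  have hu : IsUnit h.det := isUnit_iff_ne_zero.2 (det_ne_of_mem hg hh)
  set i₀ : Fin d := ⟨0, by omega⟩ with hi₀
  set θ := x i₀ with hθ
  have hev : (h i₀) ᵥ* rQ d T = θ • h i₀ := by
    have h5 : (h i₀) ᵥ* rQ d T = (h * rQ d T) i₀ := rfl
    rw [h5, hT]
    funext j
    rw [diagonal_mul]; rfl
  have hhi : h i₀ ≠ 0 := by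
    intro h0
    exact hu.ne_zero (Matrix.det_eq_zero_of_row_eq_zero i₀ fun j => congrFun h0 j)
  have hroot : aeval θ T.charpoly = 0 := by
    have h5 := vecMul_aeval (rQ d T) (h i₀) θ hev (T.charpoly.map (algebraMap ℚ ℝ))
    rw [← rQ_aeval, Matrix.aeval_self_charpoly, map_zero, vecMul_zero] at h5
    have := (smul_eq_zero.1 h5.symm).resolve_right hhi
    rwa [eval_map_algebraMap] at this
  have hint : IsIntegral ℚ θ := ⟨T.charpoly, T.charpoly_monic, by
    rw [← Polynomial.aeval_def]; exact hroot⟩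
  set K : IntermediateField ℚ ℝ := IntermediateField.adjoin ℚ {θ} with hK
  have hfd : FiniteDimensional ℚ K := IntermediateField.adjoin.finiteDimensional hint
  have hfr : Module.finrank ℚ K ≤ d := by
    rw [hK, IntermediateField.adjoin.finrank hint]
    have h1 := minpoly.degree_le_of_ne_zero ℚ θ T.charpoly_monic.ne_zero hroot
    have h2 := Polynomial.natDegree_le_natDegree h1
    rw [T.charpoly_natDegree_eq_dim, Fintype.card_fin] at h2
    exact h2
  let θK : K := ⟨θ, IntermediateField.mem_adjoin_simple_self ℚ θ⟩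
  let TK : Matrix (Fin d) (Fin d) K := T.map (algebraMap ℚ K)
  have hTK : (algebraMap K ℝ).mapMatrix TK = rQ d T := by
    ext i j
    simp [TK]
  have hdet : (TK - Matrix.scalar (Fin d) θK).det = 0 := by
    have h1 : algebraMap K ℝ (TK - Matrix.scalar (Fin d) θK).det = 0 := by
      rw [RingHom.map_det, map_sub, hTK]
      have h2 : (algebraMap K ℝ).mapMatrix (Matrix.scalar (Fin d) θK) = Matrix.scalar (Fin d) θ := by
        ext i j
        by_cases hij : i = j
        · subst hij; simp [θK]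
        · simp [hij]
      rw [h2]
      refine Matrix.exists_vecMul_eq_zero_iff.1 ⟨h i₀, hhi, ?_⟩
      rw [vecMul_sub, hev, sub_eq_zero]
      funext j
      simp [Matrix.scalar_apply, vecMul_diagonal, mul_comm]
    exact (map_eq_zero (algebraMap K ℝ)).1 h1
  obtain ⟨w, hw, hw2⟩ := Matrix.exists_vecMul_eq_zero_iff.2 hdet
  set wR : Fin d → ℝ := fun j => (w j : ℝ) with hwR
  have hwR0 : wR ≠ 0 := by
    intro h0
    apply hw
    funext j
    have := congrFun h0 j
    simpa [hwR] using this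
  have hwRT : wR ᵥ* rQ d T = θ • wR := by
    funext j
    have h1 := congrFun hw2 j
    rw [vecMul_sub, Pi.sub_apply, Pi.zero_apply, sub_eq_zero, Matrix.scalar_apply,
      vecMul_diagonal] at h1
    have h2 := congrArg (algebraMap K ℝ) h1
    rw [vecMul, dotProduct, map_sum, map_mul] at h2
    rw [Pi.smul_apply, smul_eq_mul, mul_comm θ, vecMul, dotProduct]
    refine Eq.trans (Finset.sum_congr rfl fun i _ => ?_) h2
    rw [map_mul]
    congr 1
  set c := wR ᵥ* h⁻¹ with hc
  have hch : c ᵥ* h = wR := by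
    rw [hc, vecMul_vecMul, Matrix.nonsing_inv_mul _ hu, vecMul_one]
  have hc0 : ∀ j, j ≠ i₀ → c j = 0 := by
    intro j hj
    have h1 : c ᵥ* diagonal x = θ • c := by
      have h2 : diagonal x = h * rQ d T * h⁻¹ := by
        rw [hT, Matrix.mul_assoc, Matrix.mul_nonsing_inv _ hu, Matrix.mul_one]
      rw [h2, ← vecMul_vecMul, ← vecMul_vecMul, hch, hwRT, smul_vecMul]
    have h2 := congrFun h1 j
    rw [vecMul_diagonal, Pi.smul_apply, smul_eq_mul] at h2
    have h3 : c j * (x j - θ) = 0 := by linarith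
    rcases mul_eq_zero.1 h3 with h4 | h4
    · exact h4
    · exact absurd (hx (sub_eq_zero.1 h4)) hj
  have hcw : ∀ j, wR j = c i₀ * h i₀ j := by
    intro j
    rw [← hch, vecMul, dotProduct]
    refine Finset.sum_eq_single i₀ (fun l _ hl => by rw [hc0 l hl, zero_mul]) ?_
    intro h; exact absurd (Finset.mem_univ _) h
  have hs : c i₀ ≠ 0 := by
    intro h0
    apply hwR0
    funext j
    rw [hcw, h0, zero_mul]; rfl
  rcases limit_alg hd hg hh i₀ (c i₀) hs K hfr (fun j => by rw [← hcw]; exact (w j).2) with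
    ⟨y, hy, hy0⟩ | hint | hdense
  · left
    intro ε hε
    refine small_of_zero hh y hy ?_ ε hε
    rw [FF]
    exact Finset.prod_eq_zero (Finset.mem_univ i₀) hy0
  · exact Or.inr hint
  · left
    intro ε hε
    obtain ⟨y, hy, hy2⟩ := dense_ne (by omega : 0 < d) hdense 0 ε hε
    exact ⟨y, hy, by rwa [sub_zero] at hy2⟩

end Pool.Agent.Q64.IF
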