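import Pool.Agent.Q64.IF.Cov
import Pool.Agent.H715R2.ClosedSub

/-! # Representations of a number field by rational matrices -/

open Filter Topology Matrix H715R2 NumberField

namespace Pool.Agent.Q64.IF

/-- a number field of degree `d` acting on `ℚ^d` -/
structure Rep (K : Type) [Field K] [NumberField K] (d : ℕ) where
  hd : 0 < d
  Ψ : K →+* Matrix (Fin d) (Fin d) ℚ
  hK : Module.finrank ℚ K = d

/-- rational matrices as complex matrices -/
noncomputable def cQ (d : ℕ) : Matrix (Fin d) (Fin d) ℚ →+* Matrix (Fin d) (Fin d) ℂ :=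
  (algebraMap ℚ ℂ).mapMatrix

/-- rational matrices as real matrices -/
noncomputable def rQ (d : ℕ) : Matrix (Fin d) (Fin d) ℚ →+* Matrix (Fin d) (Fin d) ℝ :=
  (algebraMap ℚ ℝ).mapMatrix

/-- real matrices as complex matrices -/
noncomputable def cR (d : ℕ) : Matrix (Fin d) (Fin d) ℝ →+* Matrix (Fin d) (Fin d) ℂ :=
  (algebraMap ℝ ℂ).mapMatrix

@[simp] lemma cQ_apply {d : ℕ} (M : Matrix (Fin d) (Fin d) ℚ) (i j : Fin d) :
    cQ d M i j = (M i j : ℂ) := by simp [cQ]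

@[simp] lemma rQ_apply {d : ℕ} (M : Matrix (Fin d) (Fin d) ℚ) (i j : Fin d) :
    rQ d M i j = (M i j : ℝ) := by simp [rQ]

@[simp] lemma cR_apply {d : ℕ} (M : Matrix (Fin d) (Fin d) ℝ) (i j : Fin d) :
    cR d M i j = (M i j : ℂ) := by simp [cR]

lemma cR_rQ {d : ℕ} (M : Matrix (Fin d) (Fin d) ℚ) : cR d (rQ d M) = cQ d M := by
  ext i j; simp

lemma cR_injective {d : ℕ} : Function.Injective (cR d) := by
  intro M N h
  ext i j
  have := congrFun (congrFun h i) j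
  simpa using this

namespace Rep

variable {K : Type} [Field K] [NumberField K] {d : ℕ} (D : Rep K d)

/-- base vector -/
def v0 : Fin d → ℚ := Pi.single ⟨0, D.hd⟩ 1

lemma v0_ne : D.v0 ≠ 0 := by
  intro h
  have := congrFun h ⟨0, D.hd⟩
  simp [v0] at this

/-- `K → ℚ^d` -/
noncomputable def toVec : K →ₗ[ℚ] (Fin d → ℚ) where
  toFun z := D.v0 ᵥ* D.Ψ z
  map_add' x y := by rw [map_add, vecMul_add]
  map_smul' c x := by
    have : D.Ψ (c • x) = c • D.Ψ x := map_smul D.Ψ.toRatAlgHom c x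
    rw [this, vecMul_smul]; rfl

lemma toVec_apply (z : K) : D.toVec z = D.v0 ᵥ* D.Ψ z := rfl

lemma toVec_injective : Function.Injective D.toVec := by
  rw [injective_iff_map_eq_zero]
  intro z hz
  by_contra hne
  apply D.v0_ne
  have h1 : D.v0 ᵥ* D.Ψ z ᵥ* D.Ψ z⁻¹ = 0 := by
    rw [← toVec_apply, hz, zero_vecMul]
  rwa [vecMul_vecMul, ← map_mul, mul_inv_cancel₀ hne, map_one, vecMul_one] at h1

/-- the isomorphism `K ≃ ℚ^d` -/
noncomputable def equiv : K ≃ₗ[ℚ] (Fin d → ℚ) :=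
  LinearMap.linearEquivOfInjective D.toVec D.toVec_injective (by rw [D.hK]; simp)

lemma equiv_apply (z : K) : D.equiv z = D.toVec z := rfl

/-- the basis of `K` -/
noncomputable def b : Module.Basis (Fin d) ℚ K := Module.Basis.ofEquivFun D.equiv

lemma toVec_b (j : Fin d) : D.toVec (D.b j) = Pi.single j 1 := by
  rw [← equiv_apply, b, Module.Basis.coe_ofEquivFun]
  simp

lemma sum_b (z : K) : ∑ j, D.toVec z j • D.b j = z := by
  have := D.b.sum_repr z
  conv_rhs => rw [← this]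
  refine Finset.sum_congr rfl fun j _ => ?_
  rfl

lemma row (z : K) (j : Fin d) : D.Ψ z j = D.toVec (D.b j * z) := by
  rw [toVec_apply, map_mul, ← vecMul_vecMul, ← toVec_apply, toVec_b, single_one_vecMul]
  rfl

/-- coordinates -/
noncomputable def Θ : (Fin d → ℂ) ≃ₗ[ℂ] ((K →+* ℂ) → ℂ) :=
  LinearEquiv.ofBijective
    ({ toFun := fun x τ => ∑ j, x j * τ (D.b j)
       map_add' := by
         intro c c'; funext j
         simp [add_mul, Finset.sum_add_distrib]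
       map_smul' := by
         intro a c; funext j
         simp [Finset.mul_sum, mul_assoc] } : (Fin d → ℂ) →ₗ[ℂ] ((K →+* ℂ) → ℂ))
    (by
      have hfin : Module.finrank ℂ (Fin d → ℂ) = Module.finrank ℂ ((K →+* ℂ) → ℂ) := by
        rw [Module.finrank_fintype_fun_eq_card, Module.finrank_fintype_fun_eq_card,
          NumberField.Embeddings.card K ℂ, D.hK, Fintype.card_fin]
      have hsurj : Function.Surjective
          ({ toFun := fun x τ => ∑ j, x j * τ (D.b j)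
             map_add' := by
               intro c c'; funext j
               simp [add_mul, Finset.sum_add_distrib]
             map_smul' := by
               intro a c; funext j
               simp [Finset.mul_sum, mul_assoc] } : (Fin d → ℂ) →ₗ[ℂ] ((K →+* ℂ) → ℂ)) := by
        intro v
        obtain ⟨x, hx⟩ := embed_surj' D.b v
        exact ⟨x, funext hx⟩
      exact ⟨(LinearMap.injective_iff_surjective_of_finrank_eq_finrank hfin).2 hsurj, hsurj⟩)

lemma Θ_apply (x : Fin d → ℂ) (τ : K →+* ℂ) : D.Θ x τ = ∑ j, x j * τ (D.b j) := rfl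

/-- the algebra `K ⊗ ℂ` in the complex matrices, in coordinates -/
noncomputable def Φ0 : (Fin d → ℂ) →ₗ[ℂ] Matrix (Fin d) (Fin d) ℂ where
  toFun c := ∑ j, c j • cQ d (D.Ψ (D.b j))
  map_add' c c' := by simp [add_smul, Finset.sum_add_distrib]
  map_smul' a c := by simp [Finset.smul_sum, smul_smul]

lemma Φ0_apply (c : Fin d → ℂ) : D.Φ0 c = ∑ j, c j • cQ d (D.Ψ (D.b j)) := rfl

/-- `K ⊗ ℂ → M_d(ℂ)` -/
noncomputable def Φ : ((K →+* ℂ) → ℂ) →ₗ[ℂ] Matrix (Fin d) (Fin d) ℂ :=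
  D.Φ0 ∘ₗ D.Θ.symm.toLinearMap

lemma Φ_Θ (c : Fin d → ℂ) : D.Φ (D.Θ c) = ∑ j, c j • cQ d (D.Ψ (D.b j)) := by
  simp [Φ, Φ0_apply]

lemma Θ_coe (z : K) : D.Θ (fun j => (D.toVec z j : ℂ)) = fun τ => τ z := by
  funext τ
  rw [Θ_apply]
  conv_rhs => rw [← D.sum_b z]
  rw [map_sum]
  refine Finset.sum_congr rfl fun j _ => ?_
  rw [Algebra.smul_def, map_mul]
  simp

lemma Ψ_sum (z : K) : D.Ψ z = ∑ j, D.toVec z j • D.Ψ (D.b j) := by
  conv_lhs => rw [← D.sum_b z]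
  rw [map_sum]
  refine Finset.sum_congr rfl fun j _ => ?_
  exact map_smul D.Ψ.toRatAlgHom _ _

lemma Φ_coe (z : K) : D.Φ (fun τ => τ z) = cQ d (D.Ψ z) := by
  rw [← Θ_coe, Φ_Θ]
  conv_rhs => rw [D.Ψ_sum z]
  rw [map_sum]
  refine Finset.sum_congr rfl fun j _ => ?_
  ext i k
  simp

lemma Φ_one : D.Φ 1 = 1 := by
  have := D.Φ_coe 1
  simp only [map_one] at this
  exact this

lemma Θ_mul (c c' : Fin d → ℂ) : D.Θ c * D.Θ c'
    = ∑ j, ∑ k, (c j * c' k) • (fun τ : K →+* ℂ => τ (D.b j * D.b k)) := by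
  funext τ
  simp only [Pi.mul_apply, Θ_apply, Finset.sum_mul, Finset.mul_sum, Finset.sum_apply,
    Pi.smul_apply, smul_eq_mul, map_mul]
  rw [Finset.sum_comm]
  refine Finset.sum_congr rfl fun j _ => Finset.sum_congr rfl fun k _ => ?_
  ring

lemma Φ_mul (v v' : (K →+* ℂ) → ℂ) : D.Φ (v * v') = D.Φ v * D.Φ v' := by
  obtain ⟨c, rfl⟩ := D.Θ.surjective v
  obtain ⟨c', rfl⟩ := D.Θ.surjective v'
  rw [Θ_mul, map_sum, Φ_Θ, Φ_Θ, Finset.sum_mul]
  refine Finset.sum_congr rfl fun j _ => ?_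
  rw [map_sum, Finset.mul_sum]
  refine Finset.sum_congr rfl fun k _ => ?_
  rw [map_smul, Φ_coe, map_mul, map_mul, smul_mul_smul_comm]

lemma v0_Φ (c : Fin d → ℂ) : (fun j => (D.v0 j : ℂ)) ᵥ* D.Φ (D.Θ c) = c := by
  rw [Φ_Θ]
  have h1 : ∀ j, (fun j => (D.v0 j : ℂ)) ᵥ* cQ d (D.Ψ (D.b j)) = Pi.single j 1 := by
    intro j
    have h2 := D.toVec_b j
    rw [toVec_apply] at h2
    funext k
    have h3 := congrFun h2 k
    have h4 : ((D.v0 ᵥ* D.Ψ (D.b j)) k : ℂ) = ((Pi.single j (1:ℚ) : Fin d → ℚ) k : ℂ) := by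
      rw [h3]
    simp only [vecMul, dotProduct, cQ_apply] at h4 ⊢
    push_cast at h4
    rw [h4]
    by_cases hk : k = j
    · subst hk; simp
    · simp [hk]
  funext k
  have h5 : (fun j => (D.v0 j : ℂ)) ᵥ* (∑ j, c j • cQ d (D.Ψ (D.b j)))
      = ∑ j, c j • ((fun j => (D.v0 j : ℂ)) ᵥ* cQ d (D.Ψ (D.b j))) := by
    rw [Matrix.vecMul_sum]
    refine Finset.sum_congr rfl fun j _ => ?_
    rw [vecMul_smul]
  rw [h5]
  simp only [h1]
  simp [Finset.sum_apply, Pi.single_apply]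

lemma Φ_injective : Function.Injective D.Φ := by
  rw [injective_iff_map_eq_zero]
  intro v hv
  obtain ⟨c, rfl⟩ := D.Θ.surjective v
  have := D.v0_Φ c
  rw [hv, vecMul_zero] at this
  rw [← this, map_zero]

/-- the commutant -/
lemma commutant (X : Matrix (Fin d) (Fin d) ℂ)
    (hX : ∀ z, X * cQ d (D.Ψ z) = cQ d (D.Ψ z) * X) : ∃ x, X = D.Φ x := by
  set u : Fin d → ℂ := fun j => (D.v0 j : ℂ) with hu
  refine ⟨D.Θ (u ᵥ* X), ?_⟩
  set Y := D.Φ (D.Θ (u ᵥ* X)) with hY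
  have hYu : u ᵥ* Y = u ᵥ* X := D.v0_Φ _
  have hYc : ∀ z, Y * cQ d (D.Ψ z) = cQ d (D.Ψ z) * Y := by
    intro z
    rw [← Φ_coe, hY, ← Φ_mul, ← Φ_mul, mul_comm]
  have hbj : ∀ j, u ᵥ* cQ d (D.Ψ (D.b j)) = Pi.single j 1 := by
    intro j
    have := D.v0_Φ (Pi.single j 1)
    rw [Φ_Θ] at this
    rw [← this]
    congr 1
    rw [Finset.sum_eq_single j]
    · simp
    · intro k _ hk
      simp [hk]
    · intro h; exact absurd (Finset.mem_univ _) h
  ext j k
  have h1 : (Pi.single j 1 : Fin d → ℂ) ᵥ* X = Pi.single j 1 ᵥ* Y := by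
    rw [← hbj, vecMul_vecMul, vecMul_vecMul, ← hX, ← hYc, ← vecMul_vecMul, ← vecMul_vecMul, hYu]
  rw [single_one_vecMul, single_one_vecMul] at h1
  exact congrFun h1 k

lemma trace_Ψ (z : K) : (cQ d (D.Ψ z)).trace = ∑ τ : K →+* ℂ, τ z := by
  have h1 : (D.Ψ z).trace = Algebra.trace ℚ K z := by
    rw [Algebra.trace_eq_matrix_trace D.b z, Matrix.trace, Matrix.trace]
    refine Finset.sum_congr rfl fun j _ => ?_
    rw [diag_apply, diag_apply, Algebra.leftMulMatrix_eq_repr_mul, D.row, mul_comm]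
    rfl
  have h2 : (cQ d (D.Ψ z)).trace = ((D.Ψ z).trace : ℂ) := by
    rw [Matrix.trace, Matrix.trace]
    push_cast
    refine Finset.sum_congr rfl fun j _ => ?_
    rw [diag_apply, diag_apply, cQ_apply]
  rw [h2, h1]
  have h3 := trace_eq_sum_embeddings ℂ (K := ℚ) (L := K) (x := z)
  have h4 : ((Algebra.trace ℚ K z : ℚ) : ℂ) = algebraMap ℚ ℂ (Algebra.trace ℚ K z) := by simp
  rw [h4, h3]
  exact (Fintype.sum_equiv (RingHom.equivRatAlgHom K ℂ) _ _ fun τ => by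
    simp [RingHom.equivRatAlgHom_apply]).symm

lemma trace_Φ (v : (K →+* ℂ) → ℂ) : (D.Φ v).trace = ∑ τ, v τ := by
  obtain ⟨c, rfl⟩ := D.Θ.surjective v
  rw [Φ_Θ, Matrix.trace_sum]
  simp only [Matrix.trace_smul, trace_Ψ, Θ_apply, smul_eq_mul, Finset.mul_sum]
  rw [Finset.sum_comm]

lemma Φ_conj (v : (K →+* ℂ) → ℂ) (i j : Fin d) :
    D.Φ (fun τ => (starRingEnd ℂ) (v (ComplexEmbedding.conjugate τ))) i j
      = (starRingEnd ℂ) (D.Φ v i j) := by
  obtain ⟨c, rfl⟩ := D.Θ.surjective v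
  have h1 : (fun τ => (starRingEnd ℂ) (D.Θ c (ComplexEmbedding.conjugate τ)))
      = D.Θ (fun j => (starRingEnd ℂ) (c j)) := by
    funext τ
    rw [Θ_apply, Θ_apply, map_sum]
    refine Finset.sum_congr rfl fun j _ => ?_
    rw [map_mul, ComplexEmbedding.conjugate_coe_eq, Complex.conj_conj]
  rw [h1, Φ_Θ, Φ_Θ]
  simp [Matrix.sum_apply]

lemma Φ_continuous : Continuous D.Φ := D.Φ.continuous_of_finiteDimensional

end Rep

end Pool.Agent.Q64.IF
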