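import Pool.Agent.Q64.IF.Spec

/-! # Tubes of units -/

open Filter Topology Matrix H715R2 NumberField

namespace Pool.Agent.Q64.IF

/-- real part of a complex matrix -/
noncomputable def reM {d : ℕ} (X : Matrix (Fin d) (Fin d) ℂ) : Matrix (Fin d) (Fin d) ℝ :=
  X.map Complex.re

lemma reM_cR {d : ℕ} (M : Matrix (Fin d) (Fin d) ℝ) : reM (cR d M) = M := by
  ext i j; simp [reM]

lemma continuous_reM {d : ℕ} : Continuous (reM : Matrix (Fin d) (Fin d) ℂ → _) :=
  continuous_id.matrix_map Complex.continuous_re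

lemma continuous_cR {d : ℕ} : Continuous (cR d) := by
  have : (cR d : Matrix (Fin d) (Fin d) ℝ → Matrix (Fin d) (Fin d) ℂ)
      = fun M => M.map (fun x : ℝ => (x : ℂ)) := by
    funext M
    ext i j
    simp
  rw [this]
  exact continuous_id.matrix_map Complex.continuous_ofReal

/-- the block projection -/
def oneI {d : ℕ} (I : Finset (Fin d)) : Matrix (Fin d) (Fin d) ℝ :=
  diagonal fun i => if i ∈ I then 1 else 0

open Classical in
/-- indicator of a set of embeddings -/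
noncomputable def ind {K : Type} [Field K] (P : Finset (K →+* ℂ)) : (K →+* ℂ) → ℂ :=
  fun τ => if τ ∈ P then 1 else 0

lemma ind_mem {K : Type} [Field K] {P : Finset (K →+* ℂ)} {τ : K →+* ℂ} (h : τ ∈ P) :
    ind P τ = 1 := if_pos h

lemma ind_notMem {K : Type} [Field K] {P : Finset (K →+* ℂ)} {τ : K →+* ℂ} (h : τ ∉ P) :
    ind P τ = 0 := if_neg h

namespace Rep

variable {K : Type} [Field K] [NumberField K] {d : ℕ} (D : Rep K d)

/-- integrality of powers of units -/
lemma exists_gamma : ∃ N : ℕ, 0 < N ∧ ∀ u : (𝓞 K)ˣ, ∃ γ : Matrix (Fin d) (Fin d) ℤ,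
    IsUnit γ.det ∧ rQ d (D.Ψ (((u ^ N : (𝓞 K)ˣ) : 𝓞 K) : K)) = zR γ := by
  obtain ⟨N, hN, -, act⟩ := exists_pow_act (K := K) D.b
  have h1 : ∀ u : (𝓞 K)ˣ, ∃ γ : Matrix (Fin d) (Fin d) ℤ,
      rQ d (D.Ψ (((u ^ N : (𝓞 K)ˣ) : 𝓞 K) : K)) = zR γ := by
    intro u
    choose y hy using fun j => act u (Pi.single j 1)
    refine ⟨fun j k => y j k, ?_⟩
    ext j k
    rw [rQ_apply, D.row]
    have h2 : (∑ j', ((Pi.single j (1 : ℤ) : Fin d → ℤ) j' : ℚ) • D.b j') = D.b j := by
      rw [Finset.sum_eq_single j]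
      · simp
      · intro j' _ hj'
        simp [Pi.single_eq_of_ne hj']
      · intro h
        exact absurd (Finset.mem_univ _) h
    have h3 := hy j
    rw [h2] at h3
    have h4 : D.toVec (D.b j * (((u ^ N : (𝓞 K)ˣ) : 𝓞 K) : K)) = fun k => (y j k : ℚ) := by
      rw [mul_comm, ← h3, map_sum]
      funext k
      simp only [map_smul, toVec_b, Finset.sum_apply, Pi.smul_apply, smul_eq_mul, Pi.single_apply]
      simp
    rw [h4]
    show (((y j k : ℤ) : ℚ) : ℝ) = ((y j k : ℤ) : ℝ)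
    push_cast
    rfl
  refine ⟨N, hN, fun u => ?_⟩
  obtain ⟨γ, hγ⟩ := h1 u
  obtain ⟨γ', hγ'⟩ := h1 u⁻¹
  refine ⟨γ, ?_, hγ⟩
  have h2 : γ * γ' = 1 := by
    have h3 : zR (γ * γ') = 1 := by
      rw [zR_mul, ← hγ, ← hγ', ← map_mul, ← map_mul]
      have : ((((u ^ N : (𝓞 K)ˣ) : 𝓞 K) : K)) * ((((u⁻¹ ^ N : (𝓞 K)ˣ) : 𝓞 K) : K)) = 1 := by
        rw [← map_mul, ← Units.val_mul, ← mul_pow, mul_inv_cancel, one_pow, Units.val_one, map_one]
      rw [this, map_one, map_one]
    ext i j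
    have h4 := congrFun (congrFun h3 i) j
    rw [zR, Matrix.map_apply] at h4
    by_cases hij : i = j
    · subst hij
      rw [one_apply_eq] at h4 ⊢
      exact_mod_cast h4
    · rw [one_apply_ne hij] at h4 ⊢
      exact_mod_cast h4
  have h3 := congrArg Matrix.det h2
  rw [det_mul, det_one] at h3
  exact IsUnit.of_mul_eq_one _ h3

lemma exists_P {h : Matrix (Fin d) (Fin d) ℝ} (hu : IsUnit h.det) (I : Finset (Fin d))
    (hblk : ∀ z : K, ∀ i j, ¬ (i ∈ I ↔ j ∈ I) → (h * rQ d (D.Ψ z) * h⁻¹) i j = 0) :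
    ∃ P : Finset (K →+* ℂ), P.card = I.card ∧
      (∀ τ, ComplexEmbedding.conjugate τ ∈ P ↔ τ ∈ P) ∧
      cR d h * D.Φ (ind P) = cR d (oneI I * h) := by
  classical
  set π := h⁻¹ * oneI I * h with hπ
  have hπh : h * π = oneI I * h := by
    rw [hπ, ← Matrix.mul_assoc, ← Matrix.mul_assoc, Matrix.mul_nonsing_inv _ hu, Matrix.one_mul]
  have hcomm : ∀ z, π * rQ d (D.Ψ z) = rQ d (D.Ψ z) * π := by
    intro z
    set B := h * rQ d (D.Ψ z) * h⁻¹ with hB
    have h1 : oneI I * B = B * oneI I := by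
      ext i j
      rw [oneI, diagonal_mul, mul_diagonal]
      by_cases hij : (i ∈ I ↔ j ∈ I)
      · by_cases hi : i ∈ I
        · rw [if_pos hi, if_pos (hij.1 hi), mul_comm]
        · rw [if_neg hi, if_neg (fun h => hi (hij.2 h)), mul_comm]
      · have h0 : B i j = 0 := hblk z i j hij
        rw [h0]; ring
    have h2 : rQ d (D.Ψ z) = h⁻¹ * B * h := by
      rw [hB]
      simp only [Matrix.mul_assoc]
      rw [Matrix.nonsing_inv_mul _ hu, Matrix.mul_one, ← Matrix.mul_assoc,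
        Matrix.nonsing_inv_mul _ hu, Matrix.one_mul]
    rw [h2, hπ]
    calc h⁻¹ * oneI I * h * (h⁻¹ * B * h) = h⁻¹ * oneI I * (h * h⁻¹) * B * h := by
          simp only [Matrix.mul_assoc]
      _ = h⁻¹ * (oneI I * B) * h := by
          rw [Matrix.mul_nonsing_inv _ hu, Matrix.mul_one]; simp only [Matrix.mul_assoc]
      _ = h⁻¹ * (B * oneI I) * h := by rw [h1]
      _ = h⁻¹ * B * 1 * oneI I * h := by rw [Matrix.mul_one]; simp only [Matrix.mul_assoc]
      _ = h⁻¹ * B * (h * h⁻¹) * oneI I * h := by rw [Matrix.mul_nonsing_inv _ hu]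
      _ = _ := by simp only [Matrix.mul_assoc]
  have hππ : π * π = π := by
    have h1 : oneI I * oneI I = oneI I := by
      rw [oneI, diagonal_mul_diagonal]
      congr 1
      funext i
      split_ifs <;> simp
    calc π * π = h⁻¹ * oneI I * (h * h⁻¹) * oneI I * h := by
          rw [hπ]; simp only [Matrix.mul_assoc]
      _ = h⁻¹ * (oneI I * oneI I) * h := by
          rw [Matrix.mul_nonsing_inv _ hu, Matrix.mul_one]; simp only [Matrix.mul_assoc]
      _ = π := by rw [h1]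
  obtain ⟨x, hx⟩ := D.commutant (cR d π) (fun z => by
    rw [← cR_rQ, ← map_mul, ← map_mul, hcomm])
  have hxx : x * x = x := by
    apply D.Φ_injective
    rw [Φ_mul, ← hx, ← map_mul, hππ]
  have hx01 : ∀ τ, x τ = 0 ∨ x τ = 1 := by
    intro τ
    have h1 := congrFun hxx τ
    rw [Pi.mul_apply] at h1
    rcases eq_or_ne (x τ) 0 with h2 | h2
    · exact Or.inl h2
    · exact Or.inr (mul_left_cancel₀ h2 (by rw [h1, mul_one]))
  set P : Finset (K →+* ℂ) := Finset.univ.filter fun τ => x τ = 1 with hP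
  have hPm : ∀ τ, τ ∈ P ↔ x τ = 1 := fun τ => by rw [hP]; simp
  have hxP : ind P = x := by
    funext τ
    by_cases h1 : τ ∈ P
    · rw [ind_mem h1]; exact ((hPm τ).1 h1).symm
    · rw [ind_notMem h1]
      rcases hx01 τ with h2 | h2
      · exact h2.symm
      · exact absurd ((hPm τ).2 h2) h1
  refine ⟨P, ?_, ?_, ?_⟩
  · have h1 : (cR d π).trace = (I.card : ℂ) := by
      have h2 : π.trace = I.card := by
        rw [hπ, Matrix.mul_assoc, Matrix.trace_mul_comm, Matrix.mul_assoc,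
          Matrix.mul_nonsing_inv _ hu, Matrix.mul_one, oneI, Matrix.trace_diagonal]
        simp
      have h3 : (cR d π).trace = ((π.trace : ℝ) : ℂ) := by
        rw [Matrix.trace, Matrix.trace]
        push_cast
        refine Finset.sum_congr rfl fun j _ => ?_
        rw [diag_apply, diag_apply, cR_apply]
      rw [h3, h2]; simp
    rw [hx, trace_Φ, ← hxP] at h1
    have h4 : ∑ τ, ind P τ = (P.card : ℂ) := by
      simp only [ind, Finset.sum_ite_mem, Finset.univ_inter, Finset.sum_const, nsmul_eq_mul,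
        mul_one]
    rw [h4] at h1
    exact_mod_cast h1
  · intro τ
    have h1 : (fun τ => (starRingEnd ℂ) (x (ComplexEmbedding.conjugate τ))) = x := by
      apply D.Φ_injective
      ext i j
      rw [Φ_conj, ← hx, cR_apply, Complex.conj_ofReal]
    have h2 : (starRingEnd ℂ) (x (ComplexEmbedding.conjugate τ)) = x τ := congrFun h1 τ
    rw [hPm, hPm, ← h2]
    constructor
    · intro h3; rw [h3, map_one]
    · intro h3
      have := congrArg (starRingEnd ℂ) h3
      rwa [Complex.conj_conj, map_one] at this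
  · rw [hxP, ← hx, ← map_mul, hπh]

/-- eigenvalues -/
lemma exists_eig (P : Finset (K →+* ℂ)) (r : Fin d → ℂ) (hr : r ≠ 0)
    (y : (K →+* ℂ) → ℂ) (h1 : r ᵥ* D.Φ y = 0)
    (h2 : r ᵥ* D.Φ (ind P) = r) : ∃ τ ∈ P, y τ = 0 := by
  classical
  by_contra hcon
  push Not at hcon
  apply hr
  have h3 : ind P = y * (fun τ => if τ ∈ P then (y τ)⁻¹ else 0) := by
    funext τ
    rw [Pi.mul_apply]
    by_cases h : τ ∈ P
    · rw [ind_mem h, if_pos h, mul_inv_cancel₀ (hcon τ h)]
    · rw [ind_notMem h, if_neg h, mul_zero]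
  rw [← h2, h3, Φ_mul, ← vecMul_vecMul, h1, zero_vecMul]

end Rep

end Pool.Agent.Q64.IF
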