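import Pool.Agent.Q64.IF.Tube

/-! # Tubes of units: the main argument -/

open Filter Topology Matrix H715R2 NumberField

namespace Pool.Agent.Q64.IF

namespace Rep

variable {K : Type} [Field K] [NumberField K] {d : ℕ} (D : Rep K d)

open Classical in
/-- weights of the embeddings -/
noncomputable def wP (d : ℕ) (P : Finset (K →+* ℂ)) (k : ℕ) (τ : K →+* ℂ) : ℝ :=
  (if τ ∈ P then (d : ℝ) else 0) - k

omit [NumberField K] in
lemma wP_mem {P : Finset (K →+* ℂ)} {k : ℕ} {τ : K →+* ℂ} (h : τ ∈ P) :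
    wP d P k τ = d - k := by rw [wP, if_pos h]

omit [NumberField K] in
lemma wP_notMem {P : Finset (K →+* ℂ)} {k : ℕ} {τ : K →+* ℂ} (h : τ ∉ P) :
    wP d P k τ = -k := by rw [wP, if_neg h]; ring

include D in
lemma sum_wP (P : Finset (K →+* ℂ)) (k : ℕ) (hk : P.card = k) : ∑ τ, wP d P k τ = 0 := by
  classical
  unfold wP
  rw [Finset.sum_sub_distrib]
  simp only [Finset.sum_ite_mem, Finset.univ_inter, Finset.sum_const, nsmul_eq_mul,
    Finset.card_univ, NumberField.Embeddings.card K ℂ, D.hK, hk]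
  ring

/-- the multiplier of a power of a unit -/
noncomputable def ee (N : ℕ) (u : (𝓞 K)ˣ) : K := (((u ^ N : (𝓞 K)ˣ) : 𝓞 K) : K)

lemma ee_mul (N : ℕ) (u u' : (𝓞 K)ˣ) : ee N (u * u') = ee N u * ee N u' := by
  unfold ee
  rw [mul_pow, Units.val_mul]
  rfl

lemma ee_one (N : ℕ) : ee N (1 : (𝓞 K)ˣ) = 1 := by
  unfold ee
  rw [one_pow, Units.val_one]
  rfl

lemma ee_inv (N : ℕ) (u : (𝓞 K)ˣ) : ee N u⁻¹ = (ee N u)⁻¹ := by
  refine eq_inv_of_mul_eq_one_left ?_
  rw [← ee_mul, inv_mul_cancel, ee_one]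

/-- the group of the exponentials of the block group times units -/
noncomputable def HH (d : ℕ) (P : Finset (K →+* ℂ)) (k N : ℕ) : Subgroup ((K →+* ℂ) → ℂˣ) where
  carrier := {v | ∃ (s : ℝ) (u : (𝓞 K)ˣ), ∀ τ, (v τ : ℂ)
    = Complex.exp ((s * wP d P k τ : ℝ) : ℂ) * τ (ee N u)}
  mul_mem' := by
    rintro v v' ⟨s, u, h⟩ ⟨s', u', h'⟩
    refine ⟨s + s', u * u', fun τ => ?_⟩
    rw [Pi.mul_apply, Units.val_mul, h, h', ee_mul, map_mul, add_mul, Complex.ofReal_add,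
      Complex.exp_add]
    ring
  one_mem' := ⟨0, 1, fun τ => by rw [ee_one]; simp⟩
  inv_mem' := by
    rintro v ⟨s, u, h⟩
    refine ⟨-s, u⁻¹, fun τ => ?_⟩
    rw [Pi.inv_apply, Units.val_inv_eq_inv_val, h, ee_inv, map_inv₀, neg_mul, Complex.ofReal_neg,
      Complex.exp_neg, mul_inv]

lemma formula {h : Matrix (Fin d) (Fin d) ℝ} {I : Finset (Fin d)} {P : Finset (K →+* ℂ)}
    (hP : cR d h * D.Φ (ind P) = cR d (oneI I * h)) (s : ℝ) (z : K) :
    cR d h * D.Φ (fun τ => Complex.exp ((s * wP d P I.card τ : ℝ) : ℂ) * τ z)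
      = cR d (DI I s * h * rQ d (D.Ψ z)) := by
  have h1 : (fun τ : K →+* ℂ => Complex.exp ((s * wP d P I.card τ : ℝ) : ℂ) * τ z)
      = (((Real.exp (s * (d - I.card)) : ℝ) : ℂ) • ind P
        + ((Real.exp (s * (-I.card)) : ℝ) : ℂ) • (1 - ind P)) * fun τ => τ z := by
    funext τ
    simp only [Pi.mul_apply, Pi.add_apply, Pi.smul_apply, Pi.sub_apply, Pi.one_apply, smul_eq_mul]
    by_cases hτ : τ ∈ P
    · rw [wP_mem hτ, ind_mem hτ]; simp
    · rw [wP_notMem hτ, ind_notMem hτ]; simp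
  have h2 : DI I s * h = (Real.exp (s * (d - I.card))) • (oneI I * h)
      + (Real.exp (s * (-I.card))) • (h - oneI I * h) := by
    ext i j
    rw [DI, diagonal_mul, oneI, Matrix.add_apply, Matrix.smul_apply, Matrix.smul_apply,
      Matrix.sub_apply, diagonal_mul, wt]
    by_cases hi : i ∈ I
    · rw [if_pos hi, if_pos hi]; simp
    · rw [if_neg hi, if_neg hi]; simp
  have h3 : ∀ (c : ℝ) (M : Matrix (Fin d) (Fin d) ℝ), cR d (c • M) = (c : ℂ) • cR d M := by
    intro c M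
    ext i j
    simp
  rw [h1, Φ_mul, Φ_coe, ← Matrix.mul_assoc, map_mul (cR d) (DI I s * h), cR_rQ, h2, map_add,
    map_smul, map_smul, map_sub, Φ_one, Matrix.mul_add, Matrix.mul_smul, Matrix.mul_smul,
    Matrix.mul_sub, Matrix.mul_one, hP, map_add (cR d), h3, h3, map_sub (cR d)]

theorem tube {g h : Matrix (Fin d) (Fin d) ℝ} {ν : ℝ} (hg : g.det ≠ 0) (hν : 0 < ν)
    (hnu : HasNu g ν) (hh : h ∈ closure (Orb g)) (I : Finset (Fin d))
    (hblk : ∀ z : K, ∀ i j, ¬ (i ∈ I ↔ j ∈ I) → (h * rQ d (D.Ψ z) * h⁻¹) i j = 0) :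
    ∃ (z : K) (x : Fin d → ℝ), h * rQ d (D.Ψ z) = diagonal x * h ∧
      ∀ i ∈ I, ∀ j ∉ I, x i ≠ x j := by
  classical
  have hhu : IsUnit h.det := isUnit_iff_ne_zero.2 (det_ne_of_mem hg hh)
  obtain ⟨P, hPcard, hPconj, hP⟩ := D.exists_P hhu I hblk
  obtain ⟨N, hN, hγ⟩ := D.exists_gamma
  obtain ⟨R, hR0, hR⟩ := exists_unit_pow_near K N hN
  set w : (K →+* ℂ) → ℝ := wP d P I.card with hw
  have hsumw : ∑ τ, w τ = 0 := D.sum_wP P _ hPcard
  have hd' : (0 : ℝ) < d := by exact_mod_cast D.hd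
  -- the closed group
  set H := HH d P I.card N with hH
  set C := H.topologicalClosure with hC
  have hCc : IsClosed (C : Set ((K →+* ℂ) → ℂˣ)) := H.isClosed_topologicalClosure
  have hHC : ∀ v ∈ H, v ∈ C := fun v hv => H.le_topologicalClosure hv
  set X : ((K →+* ℂ) → ℂˣ) → Matrix (Fin d) (Fin d) ℂ := fun v =>
    cR d h * D.Φ (fun τ => (v τ : ℂ)) with hX
  have hXc : Continuous X := by
    have h1 : Continuous fun v : (K →+* ℂ) → ℂˣ => fun τ => (v τ : ℂ) :=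
      continuous_pi fun τ => Units.continuous_val.comp (continuous_apply τ)
    exact continuous_const.matrix_mul (D.Φ_continuous.comp h1)
  have hCX : ∀ v ∈ C, cR d (reM (X v)) = X v ∧ reM (X v) ∈ closure (Orb g) := by
    have hcl : IsClosed {v | cR d (reM (X v)) = X v ∧ reM (X v) ∈ closure (Orb g)} :=
      (isClosed_eq (continuous_cR.comp (continuous_reM.comp hXc)) hXc).inter
        (isClosed_closure.preimage (continuous_reM.comp hXc))
    intro v hv
    have h1 : (C : Set ((K →+* ℂ) → ℂˣ)) ⊆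
        {v | cR d (reM (X v)) = X v ∧ reM (X v) ∈ closure (Orb g)} := by
      rw [hC, Subgroup.topologicalClosure_coe]
      refine closure_minimal ?_ hcl
      rintro v ⟨s, u, hv⟩
      obtain ⟨γ, hγ1, hγ2⟩ := hγ u
      have h2 : X v = cR d (DI I s * h * zR γ) := by
        rw [← hγ2, ← D.formula hP s]
        simp only [hX]
        congr 2
        funext τ
        exact hv τ
      refine ⟨?_, ?_⟩
      · rw [h2, reM_cR]
      · rw [h2, reM_cR]
        exact closure_gam (DI_mem hh I s) hγ1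
    exact h1 hv
  -- tangent vectors give diagonal matrices
  have htang : ∀ η ∈ tang C, ∃ a : Fin d → ℝ, X (expM η) = cR d (diagonal a * h) := by
    intro η hη
    set c : ℝ → Matrix (Fin d) (Fin d) ℝ := fun t => reM (X (expM (t • η))) with hc
    have hcc : Continuous c := by
      have h1 : Continuous fun t : ℝ => expM (t • η) :=
        continuous_expM.comp (continuous_id.smul continuous_const)
      exact continuous_reM.comp (hXc.comp h1)
    have hmem : ∀ t, expM (t • η) ∈ C := mem_tang.1 hη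
    obtain ⟨a, -, ha⟩ := path_diag D.hd hν c hcc
      (fun t => hasNu_closure hnu (hCX _ (hmem t)).2) 1
    refine ⟨a, ?_⟩
    have h0 : c 0 = h := by
      simp only [hc, zero_smul, expM_zero, hX]
      have : (fun τ : K →+* ℂ => (((1 : (K →+* ℂ) → ℂˣ) τ : ℂˣ) : ℂ)) = 1 := by
        funext τ; simp
      rw [this, Φ_one, Matrix.mul_one, reM_cR]
    have h1 : cR d (c 1) = X (expM η) := by
      have := (hCX _ (hmem 1)).1
      simp only [hc]
      rwa [one_smul] at this ⊢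
    rw [← h1, ha, h0]
  obtain ⟨δ, hδ, hδt⟩ := exists_nhds_tang C hCc
  obtain ⟨δ', hδ', hlog⟩ := exists_log (ι := K →+* ℂ) δ hδ
  -- the units
  set M0 : ℝ := (4 * R + 1) / d with hM0
  have hM0d : M0 * d = 4 * R + 1 := by rw [hM0]; field_simp
  have hpl : ∀ τ : K →+* ℂ, w (InfinitePlace.mk τ).embedding = w τ := by
    intro τ
    rcases InfinitePlace.embedding_mk_eq τ with h1 | h1
    · rw [h1]
    · rw [h1]
      simp only [hw, wP, hPconj]
  have hunit : ∀ n : ℕ, ∃ u : (𝓞 K)ˣ, ∀ τ : K →+* ℂ,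
      |Real.log ‖τ (ee N u)‖ - (n * M0) * w τ| ≤ R := by
    intro n
    obtain ⟨u, hu⟩ := hR (fun pl => (n * M0) * w pl.embedding) (by
      simp only [hpl]
      rw [← Finset.mul_sum, hsumw, mul_zero])
    refine ⟨u, fun τ => ?_⟩
    have := hu τ
    simp only [hpl] at this
    exact this
  choose u hu using hunit
  have hne : ∀ (τ : K →+* ℂ) (v : (𝓞 K)ˣ), τ (ee N v) ≠ 0 := by
    intro τ v
    rw [map_ne_zero]
    intro h0
    have h1 : ee N v * ee N v⁻¹ = 1 := by rw [← ee_mul, mul_inv_cancel, ee_one]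
    rw [h0, zero_mul] at h1
    exact zero_ne_one h1
  set V : ℕ → (K →+* ℂ) → ℂ := fun n τ =>
    Complex.exp ((-(n * M0) * w τ : ℝ) : ℂ) * τ (ee N (u n)) with hV
  have hVn : ∀ n τ, ‖V n τ‖ = Real.exp (Real.log ‖τ (ee N (u n))‖ - (n * M0) * w τ) := by
    intro n τ
    simp only [hV]
    rw [norm_mul, Complex.norm_exp, Complex.ofReal_re, Real.exp_sub,
      Real.exp_log (norm_pos_iff.2 (hne _ _)), neg_mul, Real.exp_neg]
    field_simp
  have hVu : ∀ n τ, ‖V n τ‖ ≤ Real.exp R := by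
    intro n τ
    rw [hVn]
    exact Real.exp_le_exp.2 (abs_le.1 (hu n τ)).2
  have hVl : ∀ n τ, Real.exp (-R) ≤ ‖V n τ‖ := by
    intro n τ
    rw [hVn]
    exact Real.exp_le_exp.2 (abs_le.1 (hu n τ)).1
  have hV0 : ∀ n τ, V n τ ≠ 0 := fun n τ => norm_pos_iff.1 ((Real.exp_pos _).trans_le (hVl n τ))
  -- a convergent subsequence
  obtain ⟨L, -, φ, hφ, hlim⟩ := (isCompact_closedBall (0 : (K →+* ℂ) → ℂ) (Real.exp R)).tendsto_subseq
    (x := V) (fun n => by
      rw [mem_closedBall_zero_iff, pi_norm_le_iff_of_nonneg (Real.exp_pos R).le]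
      exact hVu n)
  have hLτ : ∀ τ, Tendsto (fun n => V (φ n) τ) atTop (𝓝 (L τ)) := fun τ =>
    ((continuous_apply τ).tendsto L).comp hlim
  have hL0 : ∀ τ, L τ ≠ 0 := by
    intro τ h0
    have h1 := ge_of_tendsto' (hLτ τ).norm (fun n => hVl (φ n) τ)
    rw [h0, norm_zero] at h1
    exact absurd h1 (not_le.2 (Real.exp_pos _))
  have hq : ∀ τ, Tendsto (fun n => V (φ (n + 1)) τ / V (φ n) τ) atTop (𝓝 1) := by
    intro τ
    have h1 := ((hLτ τ).comp (tendsto_add_atTop_nat 1)).div (hLτ τ) (hL0 τ)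
    rw [div_self (hL0 τ)] at h1
    exact h1
  obtain ⟨n, hn⟩ : ∃ n, ∀ τ, ‖V (φ (n + 1)) τ / V (φ n) τ - 1‖ < δ' := by
    have h1 : ∀ᶠ n in atTop, ∀ τ, ‖V (φ (n + 1)) τ / V (φ n) τ - 1‖ < δ' := by
      refine Filter.eventually_all.2 fun τ => ?_
      have h2 := (Metric.tendsto_nhds.1 (hq τ)) δ' hδ'
      filter_upwards [h2] with n hn
      rwa [dist_eq_norm] at hn
    exact h1.exists
  set p := φ (n + 1) with hp
  set q := φ n with hq'
  have hpq : q < p := hφ (Nat.lt_succ_self n)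
  set z : K := ee N (u p * (u q)⁻¹) with hz
  have hzτ : ∀ τ : K →+* ℂ, τ z = τ (ee N (u p)) * (τ (ee N (u q)))⁻¹ := by
    intro τ
    rw [hz, ee_mul, ee_inv, map_mul, map_inv₀]
  set s : ℝ := ((p : ℝ) - q) * M0 with hs
  set G : (K →+* ℂ) → ℂˣ := fun τ => Units.mk0 (V p τ / V q τ) (div_ne_zero (hV0 _ _) (hV0 _ _))
    with hG
  have hGz : ∀ τ, (G τ : ℂ) = Complex.exp ((-s * w τ : ℝ) : ℂ) * τ z := by
    intro τ
    rw [hzτ]
    simp only [hG, Units.val_mk0, hV]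
    rw [mul_div_mul_comm, ← Complex.exp_sub, div_eq_mul_inv (τ (ee N (u p)))]
    congr 2
    rw [hs]
    push_cast
    ring
  have hGH : G ∈ H := ⟨-s, u p * (u q)⁻¹, hGz⟩
  obtain ⟨η, hη, hηG⟩ := hlog G hn
  have hηt : η ∈ tang C := hδt η hη (by rw [hηG]; exact hHC _ hGH)
  obtain ⟨a, ha⟩ := htang η hηt
  have hXG : X G = cR d (DI I (-s) * h * rQ d (D.Ψ z)) := by
    rw [← D.formula hP (-s)]
    simp only [hX]
    congr 2
    funext τ
    exact hGz τ
  rw [hηG, hXG] at ha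
  have ha' := cR_injective ha
  set x : Fin d → ℝ := fun i => Real.exp (s * wt I i) * a i with hx
  have hmain : h * rQ d (D.Ψ z) = diagonal x * h := by
    have h1 : DI I s * (DI I (-s) * h * rQ d (D.Ψ z)) = DI I s * (diagonal a * h) := by rw [ha']
    rw [← Matrix.mul_assoc, ← Matrix.mul_assoc, DI_inv, Matrix.one_mul, ← Matrix.mul_assoc,
      DI, diagonal_mul_diagonal] at h1
    exact h1
  refine ⟨z, x, hmain, ?_⟩
  -- eigenvalues
  have hrow : ∀ i, (cR d h) i ≠ 0 := by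
    intro i h0
    have h1 : h i = 0 := by
      funext j
      have := congrFun h0 j
      simpa using this
    exact hhu.ne_zero (Matrix.det_eq_zero_of_row_eq_zero i fun j => congrFun h1 j)
  have hev : ∀ i, (cR d h) i ᵥ* D.Φ (fun τ => τ z - (x i : ℂ)) = 0 := by
    intro i
    have h1 : (fun τ : K →+* ℂ => τ z - (x i : ℂ)) = (fun τ => τ z) - (x i : ℂ) • 1 := by
      funext τ; simp
    rw [h1, map_sub, map_smul, Φ_coe, Φ_one, vecMul_sub, vecMul_smul, vecMul_one]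
    have h2 : (cR d h * cQ d (D.Ψ z)) i = (x i : ℂ) • (cR d h) i := by
      rw [← cR_rQ, ← map_mul, hmain]
      funext j
      rw [cR_apply, diagonal_mul, Pi.smul_apply, cR_apply]
      push_cast
      rfl
    have h3 : (cR d h) i ᵥ* cQ d (D.Ψ z) = (cR d h * cQ d (D.Ψ z)) i := rfl
    rw [h3, h2, sub_self]
  have hvec : ∀ i, (cR d h) i ᵥ* D.Φ (ind P) = (if i ∈ I then (1:ℂ) else 0) • (cR d h) i := by
    intro i
    have h3 : (cR d h) i ᵥ* D.Φ (ind P) = (cR d h * D.Φ (ind P)) i := rfl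
    rw [h3, hP]
    funext j
    rw [cR_apply, oneI, diagonal_mul, Pi.smul_apply, cR_apply]
    by_cases hi : i ∈ I <;> simp [hi]
  have hxI : ∀ i ∈ I, ∃ τ ∈ P, τ z = (x i : ℂ) := by
    intro i hi
    obtain ⟨τ, hτ, h1⟩ := D.exists_eig P _ (hrow i) _ (hev i) (by rw [hvec, if_pos hi, one_smul])
    exact ⟨τ, hτ, sub_eq_zero.1 h1⟩
  have hxJ : ∀ i ∉ I, ∃ τ, τ ∉ P ∧ τ z = (x i : ℂ) := by
    intro i hi
    have h2 : ind Pᶜ = 1 - ind P := by
      funext τ
      rw [Pi.sub_apply, Pi.one_apply]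
      by_cases hτ : τ ∈ P
      · rw [ind_mem hτ, ind_notMem (by simpa using hτ)]; ring
      · rw [ind_notMem hτ, ind_mem (by simpa using hτ)]; ring
    obtain ⟨τ, hτ, h1⟩ := D.exists_eig Pᶜ _ (hrow i) _ (hev i) (by
      rw [h2, map_sub, Φ_one, vecMul_sub, hvec, if_neg hi, zero_smul, sub_zero, vecMul_one])
    exact ⟨τ, by simpa using hτ, sub_eq_zero.1 h1⟩
  have hlogz : ∀ τ : K →+* ℂ, |Real.log ‖τ z‖ - s * w τ| ≤ 2 * R := by
    intro τ
    have h1 : Real.log ‖τ z‖ = Real.log ‖τ (ee N (u p))‖ - Real.log ‖τ (ee N (u q))‖ := by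
      rw [hzτ, norm_mul, norm_inv, ← div_eq_mul_inv, Real.log_div
        (norm_ne_zero_iff.2 (hne _ _)) (norm_ne_zero_iff.2 (hne _ _))]
    rw [h1, hs]
    have h2 := abs_le.1 (hu p τ)
    have h3 := abs_le.1 (hu q τ)
    rw [abs_le]
    constructor <;> nlinarith [h2.1, h2.2, h3.1, h3.2]
  intro i hi j hj hij
  obtain ⟨τ, hτ, h1⟩ := hxI i hi
  obtain ⟨τ', hτ', h2⟩ := hxJ j hj
  have h3 := hlogz τ
  have h4 := hlogz τ'
  have h5 : w τ = d - I.card := wP_mem hτ
  have h6 : w τ' = -I.card := wP_notMem hτ'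
  rw [h1, h5] at h3
  rw [h2, h6, ← hij] at h4
  have h7 := (abs_le.1 h3).1
  have h8 := (abs_le.1 h4).2
  have h9 : (1 : ℝ) ≤ (p : ℝ) - q := by
    have : (q : ℝ) + 1 ≤ p := by exact_mod_cast hpq
    linarith
  have h10 : s * d = ((p : ℝ) - q) * (4 * R + 1) := by rw [hs, mul_assoc, hM0d]
  nlinarith

end Rep

end Pool.Agent.Q64.IF
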